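import Mathlib
import Pool.Agent.Run7.h950.TwoCol

/-!
Congruences modulo powers of two, powers of three, and the tick classes.

The odd numbers fall into four classes `A0, A1, A2, A3` modulo 16 which are permuted cyclically
by multiplication by three. `TT i` is a class of numbers in `A2`, which is hit by the powers of
three times every number in `A2`; the classes `TT i` are pairwise disjoint.
-/

namespace Run7.h950

open Pool.Agent.Helper617.RM Pool.Agent.H645R2.R

universe u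

set_option linter.unusedSectionVars false
set_option linter.unusedVariables false

variable {N : L2Structure.{u}} [IsModelRCA0 N]

/-! ### powers of three -/

/-- powers of three -/
structure P3 (p3 : N.M → N.M) : Prop where
  gf : GF p3
  zero : p3 0 = 1
  succ : ∀ n, p3 (n + 1) = p3 n + p3 n + p3 n

theorem exists_p3 : ∃ p3 : N.M → N.M, P3 p3 := by
  obtain ⟨p3, h, h0, hs⟩ := exists_recursion (G := fun x : N.M => x + x + x)
    (D0.eq (Tm.var 1) (((Tm.var 0).add (Tm.var 0)).add (Tm.var 0))) 1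
  exact ⟨p3, h, h0, hs⟩

namespace P3

variable {p3 : N.M → N.M}

theorem succ' (h : P3 p3) (n : N.M) : p3 (n + 1) = 3 * p3 n := by
  rw [h.succ]; ring

theorem pos (h : P3 p3) (n : N.M) : 0 < p3 n := by
  have hg := h.gf
  refine ind_S1 (P := fun n => 0 < p3 n) (D1.lt (DG.const 0) (DG.app hg (DG.var 0))).1 ?_ ?_ n
  · rw [h.zero]; exact zero_lt_one
  · intro m hm
    rw [h.succ]
    exact add_pos (add_pos hm hm) hm

theorem add (h : P3 p3) (a b : N.M) : p3 (a + b) = p3 a * p3 b := by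
  have hg := h.gf
  refine ind_S1 (P := fun b => p3 (a + b) = p3 a * p3 b)
    (D1.eq (DG.app hg (DG.add (DG.const a) (DG.var 0)))
      (DG.mul (DG.const (p3 a)) (DG.app hg (DG.var 0)))).1 ?_ ?_ b
  · rw [add_zero, h.zero, mul_one]
  · intro m hm
    rw [← add_assoc, h.succ, hm, h.succ]
    ring

theorem four (h : P3 p3) : p3 4 = 81 := by
  have e : (4 : N.M) = 0 + 1 + 1 + 1 + 1 := by norm_num
  rw [e, h.succ', h.succ', h.succ', h.succ', h.zero]
  norm_num

theorem p2_le (h : P3 p3) {p2 top la : N.M → N.M} (hB : BinF p2 top la) (n : N.M) :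
    p2 n ≤ p3 n := by
  have hg := h.gf
  have hp2 := hB.hp2
  refine ind_S1 (P := fun n => p2 n ≤ p3 n)
    (D1.le (DG.app hp2 (DG.var 0)) (DG.app hg (DG.var 0))).1 ?_ ?_ n
  · rw [h.zero, hB.p2_zero]
  · intro m hm
    rw [h.succ, hB.p2_succ]
    exact (add_le_add hm hm).trans (le_add_of_nonneg_right (zero_le' _))

/-- `3 ^ m * v < 2 ^ s` implies `m < s` -/
theorem lt_of (h : P3 p3) {p2 top la : N.M → N.M} (hB : BinF p2 top la) {m v s : N.M}
    (hv : 0 < v) (hm : p3 m * v < p2 s) : m < s := by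
  have h1 : p3 m ≤ p3 m * v := le_mul_of_one_le_right (zero_le' _) (one_le_of_pos hv)
  have h2 : p2 m < p2 s := (h.p2_le hB m).trans_lt (h1.trans_lt hm)
  by_contra hcon
  rcases eq_or_lt_of_le (not_lt.1 hcon) with h3 | h3
  · rw [h3] at h2
    exact lt_irrefl _ h2
  · exact lt_asymm h2 (hB.p2_lt _ _ h3)

end P3

/-! ### remainders -/

theorem rem_unique {P r r' q q' : N.M} (hr : r < P) (hr' : r' < P)
    (h : r + P * q = r' + P * q') : r = r' ∧ q = q' := by
  have key : ∀ {r r' q q' : N.M}, r < P → r + P * q = r' + P * q' → q < q' → False := by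
    intro r r' q q' hr h hq
    obtain ⟨d, hd⟩ := exists_sub (succ_le' hq)
    have h1 : r' + P * q' = (r' + P * (1 + d)) + P * q := by rw [hd]; ring
    rw [h1] at h
    have h2 := add_cancel' h
    have h3 : P ≤ r' + P * (1 + d) := by
      have : r' + P * (1 + d) = P + (r' + P * d) := by ring
      rw [this]
      exact le_add_of_nonneg_right (zero_le' _)
    rw [← h2] at h3
    exact absurd hr (not_lt.2 h3)
  rcases lt_trichotomy q q' with hq | hq | hq
  · exact (key hr h hq).elim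
  · subst hq
    exact ⟨add_cancel' h, rfl⟩
  · exact (key hr' h.symm hq).elim

/-- congruence modulo `p2 R` -/
def Cg (p2 : N.M → N.M) (R x y : N.M) : Prop :=
  ∃ a q q', x = a + p2 R * q ∧ y = a + p2 R * q'

section cong

variable {p2 top la : N.M → N.M}

theorem Cg.refl (R x : N.M) : Cg p2 R x x := ⟨x, 0, 0, by ring, by ring⟩

theorem Cg.symm {R x y : N.M} (h : Cg p2 R x y) : Cg p2 R y x := by
  obtain ⟨a, q, q', h1, h2⟩ := h
  exact ⟨a, q', q, h2, h1⟩

theorem Cg.add {R x y : N.M} (h : Cg p2 R x y) (c : N.M) : Cg p2 R (x + c) (y + c) := by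
  obtain ⟨a, q, q', h1, h2⟩ := h
  exact ⟨a + c, q, q', by rw [h1]; ring, by rw [h2]; ring⟩

theorem Cg.mul {R x y : N.M} (h : Cg p2 R x y) (c : N.M) : Cg p2 R (c * x) (c * y) := by
  obtain ⟨a, q, q', h1, h2⟩ := h
  exact ⟨c * a, c * q, c * q', by rw [h1]; ring, by rw [h2]; ring⟩

theorem Cg.of_add (R x q : N.M) : Cg p2 R (x + p2 R * q) x := ⟨x, q, 0, rfl, by ring⟩

theorem Cg.mono (hB : BinF p2 top la) {R R' x y : N.M} (h : Cg p2 R x y) (hR : R' ≤ R) :
    Cg p2 R' x y := by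
  obtain ⟨a, q, q', h1, h2⟩ := h
  obtain ⟨d, hd⟩ := exists_sub hR
  refine ⟨a, p2 d * q, p2 d * q', ?_, ?_⟩
  · rw [h1, hd, hB.p2_add]; ring
  · rw [h2, hd, hB.p2_add]; ring

/-- congruent numbers have the same remainder -/
theorem Cg.rem (hB : BinF p2 top la) {R x y : N.M} (h : Cg p2 R x y) :
    ∃ r q q', r < p2 R ∧ x = r + p2 R * q ∧ y = r + p2 R * q' := by
  obtain ⟨a, q, q', h1, h2⟩ := h
  obtain ⟨r, c, hr, ha⟩ := hB.modp a R
  refine ⟨r, c + q, c + q', hr, ?_, ?_⟩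
  · rw [h1]
    conv_lhs => rw [ha]
    ring
  · rw [h2]
    conv_lhs => rw [ha]
    ring

theorem Cg.trans (hB : BinF p2 top la) {R x y z : N.M} (h : Cg p2 R x y) (h' : Cg p2 R y z) :
    Cg p2 R x z := by
  obtain ⟨r, q, q', hr, h1, h2⟩ := h.rem hB
  obtain ⟨s, t, t', hs, h3, h4⟩ := h'.rem hB
  have h5 := (rem_unique hr hs (h2.symm.trans h3)).1
  exact ⟨r, q, t', h1, by rw [h5]; exact h4⟩

theorem Cg.eq_of_lt (hB : BinF p2 top la) {R x y : N.M} (h : Cg p2 R x y) (hx : x < p2 R)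
    (hy : y < p2 R) : x = y := by
  obtain ⟨r, q, q', hr, h1, h2⟩ := h.rem hB
  have e1 : x + p2 R * 0 = r + p2 R * q := by rw [mul_zero, add_zero]; exact h1
  have e2 : y + p2 R * 0 = r + p2 R * q' := by rw [mul_zero, add_zero]; exact h2
  rw [(rem_unique hx hr e1).1, (rem_unique hy hr e2).1]

theorem Cg.D1' (hB : BinF p2 top la) {f g h : Ctx N → N.M} (hf : DG f) (hg : DG g)
    (hh : DG h) : D1 (fun v => Cg p2 (f v) (g v) (h v)) := by
  have hp2 := hB.hp2
  have hle : ∀ R q : N.M, q ≤ p2 R * q := fun R q =>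
    le_mul_of_one_le_left (zero_le' _) (one_le_of_pos (hB.p2_pos R))
  have h1 : D1 (fun v : Ctx N => ∃ a, a < g v + 1 ∧ ∃ q, q < g v + 1 ∧ ∃ q', q' < h v + 1 ∧
      (g v = a + p2 (f v) * q ∧ h v = a + p2 (f v) * q')) := by
    refine D1.bex (P := fun v a => ∃ q, q < g v + 1 ∧ ∃ q', q' < h v + 1 ∧
      (g v = a + p2 (f v) * q ∧ h v = a + p2 (f v) * q')) (DG.add hg (DG.const 1)) ?_
    refine D1.bex (P := fun v q => ∃ q', q' < h (tail v) + 1 ∧
      (g (tail v) = v 0 + p2 (f (tail v)) * q ∧ h (tail v) = v 0 + p2 (f (tail v)) * q'))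
      (DG.add hg.tail (DG.const 1)) ?_
    refine D1.bex (P := fun v q' =>
      (g (tail (tail v)) = v 1 + p2 (f (tail (tail v))) * v 0 ∧
        h (tail (tail v)) = v 1 + p2 (f (tail (tail v))) * q'))
      (DG.add hh.tail.tail (DG.const 1)) ?_
    exact D1.and (D1.eq hg.tail.tail.tail (DG.add (DG.var 2)
      (DG.mul (DG.app hp2 hf.tail.tail.tail) (DG.var 1))))
      (D1.eq hh.tail.tail.tail (DG.add (DG.var 2)
      (DG.mul (DG.app hp2 hf.tail.tail.tail) (DG.var 0))))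
  refine D1.congr h1 fun v => ?_
  constructor
  · rintro ⟨a, -, q, -, q', -, h2, h3⟩
    exact ⟨a, q, q', h2, h3⟩
  · rintro ⟨a, q, q', h2, h3⟩
    refine ⟨a, ?_, q, ?_, q', ?_, h2, h3⟩
    · rw [h2]
      exact lt1_of_le (le_add_of_nonneg_right (zero_le' _))
    · rw [h2]
      exact lt1_of_le ((hle _ _).trans (le_add_of_nonneg_left (zero_le' _)))
    · rw [h3]
      exact lt1_of_le ((hle _ _).trans (le_add_of_nonneg_left (zero_le' _)))

/-! ### residues modulo 16 -/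

theorem p2_four (hB : BinF p2 top la) : p2 4 = 16 := by
  have e : (4 : N.M) = 0 + 1 + 1 + 1 + 1 := by norm_num
  rw [e, hB.p2_succ, hB.p2_succ, hB.p2_succ, hB.p2_succ, hB.p2_zero]
  norm_num

theorem lt_cases (n : ℕ) : ∀ r : N.M, r < (n : N.M) → ∃ k : ℕ, k < n ∧ r = (k : N.M) := by
  induction n with
  | zero =>
    intro r hr
    rw [Nat.cast_zero] at hr
    exact absurd hr (not_lt.2 (zero_le' r))
  | succ n ih =>
    intro r hr
    rw [Nat.cast_succ] at hr
    rcases lt_or_eq_of_le (le_of_lt1 hr) with h | h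
    · obtain ⟨k, hk, h1⟩ := ih r h
      exact ⟨k, hk.trans (Nat.lt_succ_self n), h1⟩
    · exact ⟨n, Nat.lt_succ_self n, h⟩

/-- congruence of numerals modulo 16 -/
theorem cg16 (hB : BinF p2 top la) {a b c d : ℕ} (h : a + 16 * c = b + 16 * d) :
    Cg p2 4 (a : N.M) (b : N.M) := by
  have h1 : ((a + 16 * c : ℕ) : N.M) = ((b + 16 * d : ℕ) : N.M) := by rw [h]
  push_cast at h1
  have e1 : Cg p2 4 ((a : N.M) + 16 * c) a := by
    have := Cg.of_add (p2 := p2) 4 (a : N.M) (c : N.M)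
    rwa [p2_four hB] at this
  have e2 : Cg p2 4 ((b : N.M) + 16 * d) b := by
    have := Cg.of_add (p2 := p2) 4 (b : N.M) (d : N.M)
    rwa [p2_four hB] at this
  rw [h1] at e1
  exact e1.symm.trans hB e2

theorem ncg16 (hB : BinF p2 top la) {a b : ℕ} (ha : a < 16) (hb : b < 16) (hab : a ≠ b) :
    ¬ Cg p2 4 (a : N.M) (b : N.M) := by
  intro h
  have h1 : (a : N.M) < 16 := by exact_mod_cast ha
  have h2 : (b : N.M) < 16 := by exact_mod_cast hb
  rw [← p2_four hB] at h1 h2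
  have := h.eq_of_lt hB h1 h2
  exact hab (by exact_mod_cast this)

/-- `w` is congruent to `a` or `b` modulo 16 -/
def Cl (p2 : N.M → N.M) (a b : ℕ) (w : N.M) : Prop :=
  Cg p2 4 w (a : N.M) ∨ Cg p2 4 w (b : N.M)

theorem Cl.D1' (hB : BinF p2 top la) (a b : ℕ) {g : Ctx N → N.M} (hg : DG g) :
    D1 (fun v => Cl p2 a b (g v)) :=
  (Cg.D1' hB (DG.const 4) hg (DG.const (a : N.M))).or
    (Cg.D1' hB (DG.const 4) hg (DG.const (b : N.M)))

theorem Cl.step (hB : BinF p2 top la) {a b a' b' : ℕ} {w : N.M} (h : Cl p2 a b w)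
    (h' : (3 * a % 16 = a' ∧ 3 * b % 16 = b') ∨ (3 * a % 16 = b' ∧ 3 * b % 16 = a')) :
    Cl p2 a' b' (3 * w) := by
  have key : ∀ x : ℕ, Cg p2 4 w (x : N.M) → Cg p2 4 (3 * w) ((3 * x % 16 : ℕ) : N.M) := by
    intro x hx
    have h1 := hx.mul 3
    refine h1.trans hB ?_
    have h2 := cg16 (N := N) hB (a := 3 * x) (b := 3 * x % 16) (c := 0) (d := 3 * x / 16)
      (by omega)
    push_cast at h2 ⊢
    exact h2
  rcases h with h | h <;> rcases h' with ⟨h1, h2⟩ | ⟨h1, h2⟩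
  · exact Or.inl (h1 ▸ key a h)
  · exact Or.inr (h1 ▸ key a h)
  · exact Or.inr (h2 ▸ key b h)
  · exact Or.inl (h2 ▸ key b h)

theorem Cl.excl (hB : BinF p2 top la) {a b a' b' : ℕ} {w : N.M} (h : Cl p2 a b w)
    (h' : Cl p2 a' b' w) (h1 : a < 16 ∧ b < 16 ∧ a' < 16 ∧ b' < 16)
    (h2 : a ≠ a' ∧ a ≠ b' ∧ b ≠ a' ∧ b ≠ b') : False := by
  rcases h with h | h <;> rcases h' with h' | h'
  · exact ncg16 hB h1.1 h1.2.2.1 h2.1 (h.symm.trans hB h')
  · exact ncg16 hB h1.1 h1.2.2.2 h2.2.1 (h.symm.trans hB h')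
  · exact ncg16 hB h1.2.1 h1.2.2.1 h2.2.2.1 (h.symm.trans hB h')
  · exact ncg16 hB h1.2.1 h1.2.2.2 h2.2.2.2 (h.symm.trans hB h')

theorem Cl.cg (hB : BinF p2 top la) {a b : ℕ} {w w' R : N.M} (h : Cl p2 a b w)
    (hw : Cg p2 R w w') (hR : 4 ≤ R) : Cl p2 a b w' := by
  have h1 := (hw.mono hB hR).symm
  rcases h with h | h
  · exact Or.inl (h1.trans hB h)
  · exact Or.inr (h1.trans hB h)

theorem cl_cover (hB : BinF p2 top la) (k : N.M) :
    Cl p2 1 15 (k + k + 1) ∨ Cl p2 3 13 (k + k + 1) ∨ Cl p2 7 9 (k + k + 1) ∨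
      Cl p2 5 11 (k + k + 1) := by
  obtain ⟨r, q, hr, h⟩ := hB.modp (k + k + 1) 4
  have hr' : r < ((16 : ℕ) : N.M) := by
    rw [p2_four hB] at hr
    exact_mod_cast hr
  obtain ⟨n, hn, rfl⟩ := lt_cases 16 r hr'
  have hc : Cg p2 4 (k + k + 1) (n : N.M) := by
    rw [h]
    exact Cg.of_add _ _ _
  have hodd : ∀ m : ℕ, n ≠ 2 * m := by
    rintro m rfl
    have h1 : k + k + 1 = ((m : N.M) + 8 * q) + ((m : N.M) + 8 * q) := by
      rw [h, p2_four hB]
      push_cast
      ring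
    exact BinEx.even_ne_odd _ _ h1.symm
  have h3 : n = 1 ∨ n = 3 ∨ n = 5 ∨ n = 7 ∨ n = 9 ∨ n = 11 ∨ n = 13 ∨ n = 15 := by
    have a0 := hodd (n / 2)
    omega
  rcases h3 with h3 | h3 | h3 | h3 | h3 | h3 | h3 | h3 <;> subst h3
  · exact Or.inl (Or.inl hc)
  · exact Or.inr (Or.inl (Or.inl hc))
  · exact Or.inr (Or.inr (Or.inr (Or.inl hc)))
  · exact Or.inr (Or.inr (Or.inl (Or.inl hc)))
  · exact Or.inr (Or.inr (Or.inl (Or.inr hc)))
  · exact Or.inr (Or.inr (Or.inr (Or.inr hc)))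
  · exact Or.inr (Or.inl (Or.inr hc))
  · exact Or.inl (Or.inr hc)

/-! ### ticks -/

/-- the class number `i` of ticks -/
def TT (p2 : N.M → N.M) (i z : N.M) : Prop :=
  Cg p2 (i + 5) z (9 + p2 (i + 4)) ∨ Cg p2 (i + 5) (z + 9) (p2 (i + 4))

theorem TT.D1' (hB : BinF p2 top la) {f g : Ctx N → N.M} (hf : DG f) (hg : DG g) :
    D1 (fun v => TT p2 (f v) (g v)) := by
  have hp2 := hB.hp2
  exact (Cg.D1' hB (DG.add hf (DG.const 5)) hg
    (DG.add (DG.const 9) (DG.app hp2 (DG.add hf (DG.const 4))))).or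
    (Cg.D1' hB (DG.add hf (DG.const 5)) (DG.add hg (DG.const 9))
      (DG.app hp2 (DG.add hf (DG.const 4))))

theorem TT.cg (hB : BinF p2 top la) {i z z' R : N.M} (h : TT p2 i z) (hz : Cg p2 R z z')
    (hR : i + 5 ≤ R) : TT p2 i z' := by
  have h1 := (hz.mono hB hR).symm
  rcases h with h | h
  · exact Or.inl (h1.trans hB h)
  · exact Or.inr ((h1.add 9).trans hB h)

theorem p2_cg_zero (hB : BinF p2 top la) {i j : N.M} (h : i ≤ j) : Cg p2 i (p2 j) 0 := by
  obtain ⟨d, rfl⟩ := exists_sub h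
  rw [hB.p2_add]
  exact ⟨0, p2 d, 0, by ring, by ring⟩

theorem p2_gt_nine (hB : BinF p2 top la) (i : N.M) : 9 < p2 (i + 4) := by
  have h1 : p2 4 ≤ p2 (i + 4) := by
    rw [hB.p2_add]
    exact le_mul_of_one_le_left (zero_le' _) (one_le_of_pos (hB.p2_pos i))
  rw [p2_four hB] at h1
  have h2 : (9 : N.M) < 16 := by norm_num
  exact h2.trans_le h1

theorem TT.A2 (hB : BinF p2 top la) {i z : N.M} (h : TT p2 i z) : Cl p2 7 9 z := by
  have h45 : (4 : N.M) ≤ i + 5 := by
    have : i + 5 = 4 + (i + 1) := by ring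
    rw [this]
    exact le_add_of_nonneg_right (zero_le' _)
  have h44 : (4 : N.M) ≤ i + 4 := le_add_of_nonneg_left (zero_le' _)
  rcases h with h | h
  · right
    have h1 := (p2_cg_zero hB h44).add 9
    rw [zero_add, add_comm] at h1
    have h2 := (h.mono hB h45).trans hB h1
    exact_mod_cast h2
  · left
    have h1 := ((h.mono hB h45).trans hB (p2_cg_zero hB h44)).add 7
    rw [zero_add] at h1
    have h2 : Cg p2 4 (z + 9 + 7) z := by
      have e : z + 9 + 7 = z + p2 4 * 1 := by rw [p2_four hB]; ring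
      rw [e]
      exact Cg.of_add _ _ _
    have h3 := h2.symm.trans hB h1
    exact_mod_cast h3

theorem TT.disj (hB : BinF p2 top la) {i j z : N.M} (h : TT p2 i z) (h' : TT p2 j z)
    (hij : i < j) : False := by
  have hlt : p2 (i + 4) < p2 (i + 5) := hB.p2_lt _ _ (by
    have : i + 5 = (i + 4) + 1 := by ring
    rw [this]
    exact lt1 _)
  have hlt9 : 9 + p2 (i + 4) < p2 (i + 5) := by
    have e : i + 5 = (i + 4) + 1 := by ring
    rw [e, hB.p2_succ]
    exact add_lt_add_left (p2_gt_nine hB i) _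
  have h9 : (9 : N.M) < p2 (i + 5) := (p2_gt_nine hB i).trans hlt
  have hij5 : i + 5 ≤ j + 4 := by
    obtain ⟨d, hd⟩ := exists_sub (succ_le' hij)
    have : j + 4 = i + 5 + d := by rw [hd]; ring
    rw [this]
    exact le_add_of_nonneg_right (zero_le' _)
  have hij5' : i + 5 ≤ j + 5 := hij5.trans (by
    have : j + 5 = j + 4 + 1 := by ring
    rw [this]
    exact (lt1 _).le)
  have h45 : ∀ i : N.M, (4 : N.M) ≤ i + 5 := fun i => by
    have : i + 5 = 4 + (i + 1) := by ring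
    rw [this]
    exact le_add_of_nonneg_right (zero_le' _)
  have h44 : ∀ i : N.M, (4 : N.M) ≤ i + 4 := fun i => le_add_of_nonneg_left (zero_le' _)
  have hpj := p2_cg_zero hB hij5
  have hpos := hB.p2_pos (i + 4)
  have h18 : ¬ Cg p2 4 (9 + 9 : N.M) 0 := by
    intro h0
    have h1 := cg16 (N := N) hB (a := 2) (b := 18) (c := 1) (d := 0) (by norm_num)
    have e : ((18 : ℕ) : N.M) = 9 + 9 := by norm_num
    rw [e] at h1
    have h2 := h1.trans hB h0
    have h3 := ncg16 (N := N) hB (a := 2) (b := 0) (by norm_num) (by norm_num) (by norm_num)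
    rw [Nat.cast_zero] at h3
    exact h3 h2
  -- modulo 16
  have m9 : ∀ i : N.M, Cg p2 (i + 5) z (9 + p2 (i + 4)) → Cg p2 4 (z + 9) (9 + 9) := by
    intro i hi
    have h1 := (p2_cg_zero hB (h44 i)).add 9
    rw [zero_add, add_comm] at h1
    exact ((hi.mono hB (h45 i)).trans hB h1).add 9
  have m0 : ∀ i : N.M, Cg p2 (i + 5) (z + 9) (p2 (i + 4)) → Cg p2 4 (z + 9) 0 := by
    intro i hi
    exact (hi.mono hB (h45 i)).trans hB (p2_cg_zero hB (h44 i))
  rcases h with h | h <;> rcases h' with h' | h'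
  · have h1 := hpj.add 9
    rw [zero_add, add_comm (p2 (j + 4)) 9] at h1
    have h2 := h.symm.trans hB ((h'.mono hB hij5').trans hB h1)
    have h3 := h2.eq_of_lt hB hlt9 h9
    exact absurd h3 (lt_add_of_pos_right _ hpos).ne'
  · exact h18 ((m9 i h).symm.trans hB (m0 j h'))
  · exact h18 ((m9 j h').symm.trans hB (m0 i h))
  · have h2 := h.symm.trans hB ((h'.mono hB hij5').trans hB hpj)
    have h3 := h2.eq_of_lt hB hlt (hB.p2_pos _)
    exact absurd h3 hpos.ne'

end cong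

end Run7.h950
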