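import Mathlib
import Pool.Agent.Run7.h950.Cong

/-!
Every odd number has multiples by high powers of three in each class of ticks.
-/

namespace Run7.h950

open Pool.Agent.Helper617.RM Pool.Agent.H645R2.R

universe u

set_option linter.unusedSectionVars false
set_option linter.unusedVariables false

variable {N : L2Structure.{u}} [IsModelRCA0 N]

/-- odd numbers -/
def Od (y : N.M) : Prop := ∃ k, y = k + k + 1

theorem Od.mul {a b : N.M} (ha : Od a) (hb : Od b) : Od (a * b) := by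
  obtain ⟨k, rfl⟩ := ha
  obtain ⟨l, rfl⟩ := hb
  exact ⟨2 * k * l + k + l, by ring⟩

theorem Od.pos {a : N.M} (ha : Od a) : 0 < a := by
  obtain ⟨k, rfl⟩ := ha
  exact (zero_le' _).trans_lt (lt1 _)

variable {p2 top la p3 : N.M → N.M}

theorem Od.add (hB : BinF p2 top la) {a R : N.M} (ha : Od a) (q : N.M) :
    Od (a + p2 (R + 1) * q) := by
  obtain ⟨k, rfl⟩ := ha
  exact ⟨k + p2 R * q, by rw [hB.p2_succ]; ring⟩

theorem Od.cg (hB : BinF p2 top la) {x w R : N.M} (h : Cg p2 (R + 1) w x) (hx : Od x) :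
    Od w := by
  obtain ⟨a, q, q', h1, h2⟩ := h
  obtain ⟨k, hk⟩ := hx
  obtain ⟨b, -, hb⟩ := BinEx.parity a
  rcases hb with hb | hb
  · exfalso
    rw [hB.p2_succ] at h2
    have h3 : (b + p2 R * q') + (b + p2 R * q') = k + k + 1 := by
      rw [← hk, h2, hb]; ring
    exact BinEx.even_ne_odd _ _ h3
  · refine ⟨b + p2 R * q, ?_⟩
    rw [h1, hB.p2_succ, hb]
    ring

theorem od_nat {n : ℕ} (h : n % 2 = 1) : Od (n : N.M) := by
  obtain ⟨m, rfl⟩ : ∃ m, n = m + m + 1 := ⟨n / 2, by omega⟩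
  exact ⟨(m : N.M), by push_cast; ring⟩

theorem Cl.od (hB : BinF p2 top la) {a b : ℕ} {w : N.M} (h : Cl p2 a b w) (ha : a % 2 = 1)
    (hb : b % 2 = 1) : Od w := by
  have e : (4 : N.M) = 3 + 1 := by norm_num
  rcases h with h | h
  · rw [e] at h
    exact Od.cg hB h (od_nat ha)
  · rw [e] at h
    exact Od.cg hB h (od_nat hb)

theorem p3_od (h3 : P3 p3) (n : N.M) : Od (p3 n) := by
  have hg := h3.gf
  refine ind_S1 (P := fun n => ∃ k, p3 n = k + k + 1) ?_ ?_ ?_ n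
  · exact S1.ex (D1.eq (DG.app hg (DG.var 1)) (DG.add (DG.add (DG.var 0) (DG.var 0))
      (DG.const 1))).1
  · exact ⟨0, by rw [h3.zero]; ring⟩
  · rintro m ⟨k, hk⟩
    exact ⟨3 * k + 1, by rw [h3.succ', hk]; ring⟩

theorem powP (hB : BinF p2 top la) (h3 : P3 p3) (i : N.M) :
    ∃ k, p3 (p2 (i + 2)) = 1 + p2 (i + 4) * (k + k + 1) := by
  have hg := h3.gf
  have hp2 := hB.hp2
  refine ind_S1 (P := fun i => ∃ k, p3 (p2 (i + 2)) = 1 + p2 (i + 4) * (k + k + 1)) ?_ ?_ ?_ i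
  · exact S1.ex (D1.eq (DG.app hg (DG.app hp2 (DG.add (DG.var 1) (DG.const 2))))
      (DG.add (DG.const 1) (DG.mul (DG.app hp2 (DG.add (DG.var 1) (DG.const 4)))
      (DG.add (DG.add (DG.var 0) (DG.var 0)) (DG.const 1))))).1
  · refine ⟨2, ?_⟩
    have e2 : p2 2 = 4 := by
      have e : (2 : N.M) = 0 + 1 + 1 := by norm_num
      rw [e, hB.p2_succ, hB.p2_succ, hB.p2_zero]
      norm_num
    rw [zero_add, zero_add, e2, h3.four, p2_four hB]
    norm_num
  · rintro j ⟨k, hk⟩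
    refine ⟨k + p2 (j + 2) * ((k + k + 1) * (k + k + 1)), ?_⟩
    have e1 : j + 1 + 2 = (j + 2) + 1 := by ring
    have e2 : j + 1 + 4 = (j + 4) + 1 := by ring
    have e3 : p2 (j + 4) = p2 (j + 2) * 4 := by
      have : j + 4 = (j + 2) + 1 + 1 := by ring
      rw [this, hB.p2_succ, hB.p2_succ]
      ring
    rw [e1, hB.p2_succ (j + 2), h3.add, hk, e2, hB.p2_succ (j + 4), e3]
    ring

theorem mulodd (hB : BinF p2 top la) {j k y : N.M} (hy : Od y) :
    Cg p2 (j + 1) ((1 + p2 j * (k + k + 1)) * y) (y + p2 j) := by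
  obtain ⟨e, rfl⟩ := hy
  have h : (1 + p2 j * (k + k + 1)) * (e + e + 1) =
      ((e + e + 1) + p2 j) + p2 (j + 1) * (2 * k * e + k + e) := by
    rw [hB.p2_succ]; ring
  rw [h]
  exact Cg.of_add _ _ _

theorem cg_split (hB : BinF p2 top la) {j y a : N.M} (h : Cg p2 j y a) :
    Cg p2 (j + 1) y a ∨ Cg p2 (j + 1) y (a + p2 j) := by
  obtain ⟨c, q, q', h1, h2⟩ := h
  obtain ⟨s, -, hs⟩ := BinEx.parity q
  obtain ⟨s', -, hs'⟩ := BinEx.parity q'
  rcases hs with hs | hs <;> rcases hs' with hs' | hs'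
  · left
    exact ⟨c, s, s', by rw [h1, hs, hB.p2_succ]; ring, by rw [h2, hs', hB.p2_succ]; ring⟩
  · right
    exact ⟨c, s, s' + 1, by rw [h1, hs, hB.p2_succ]; ring, by rw [h2, hs', hB.p2_succ]; ring⟩
  · right
    exact ⟨c + p2 j, s, s', by rw [h1, hs, hB.p2_succ]; ring,
      by rw [h2, hs', hB.p2_succ]; ring⟩
  · left
    exact ⟨c + p2 j, s, s', by rw [h1, hs, hB.p2_succ]; ring,
      by rw [h2, hs', hB.p2_succ]; ring⟩

/-- `z` is congruent to `9` or `-9` modulo `2 ^ (i + 4)` -/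
def ZZ (p2 : N.M → N.M) (i z : N.M) : Prop := Cg p2 (i + 4) z 9 ∨ Cg p2 (i + 4) (z + 9) 0

theorem ZZ.D1' (hB : BinF p2 top la) {f g : Ctx N → N.M} (hf : DG f) (hg : DG g) :
    D1 (fun v => ZZ p2 (f v) (g v)) :=
  (Cg.D1' hB (DG.add hf (DG.const 4)) hg (DG.const 9)).or
    (Cg.D1' hB (DG.add hf (DG.const 4)) (DG.add hg (DG.const 9)) (DG.const 0))

theorem ZZ.next (hB : BinF p2 top la) {i y : N.M} (h : ZZ p2 i y) :
    ZZ p2 (i + 1) y ∨ TT p2 i y := by
  have e : i + 1 + 4 = i + 5 := by ring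
  have e' : i + 4 + 1 = i + 5 := by ring
  unfold ZZ TT
  rw [e]
  rcases h with h | h
  · rcases cg_split hB h with h1 | h1
    · rw [e'] at h1
      exact Or.inl (Or.inl h1)
    · rw [e'] at h1
      exact Or.inr (Or.inl h1)
  · rcases cg_split hB h with h1 | h1
    · rw [e'] at h1
      exact Or.inl (Or.inr h1)
    · rw [e', zero_add] at h1
      exact Or.inr (Or.inr h1)

theorem TT.od (hB : BinF p2 top la) {i y : N.M} (h : TT p2 i y) : Od y :=
  (h.A2 hB).od hB rfl rfl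

theorem ZZ.od (hB : BinF p2 top la) {i y : N.M} (h : ZZ p2 i y) : Od y := by
  have e : i + 4 = (i + 3) + 1 := by ring
  rcases h with h | h
  · rw [e] at h
    have := od_nat (N := N) (n := 9) rfl
    push_cast at this
    exact Od.cg hB h this
  · have h1 := h.add 1
    rw [e, zero_add] at h1
    have h2 : Od (y + 9 + 1) := Od.cg hB h1 ⟨0, by ring⟩
    obtain ⟨k, hk⟩ := h2
    obtain ⟨b, -, hb⟩ := BinEx.parity y
    rcases hb with hb | hb
    · exfalso
      have h3 : (b + 5) + (b + 5) = k + k + 1 := by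
        rw [← hk, hb]; ring
      exact BinEx.even_ne_odd _ _ h3
    · exact ⟨b, hb⟩

/-- multiplication by `3 ^ 2 ^ (i + 2)` adds `2 ^ (i + 4)` modulo `2 ^ (i + 5)` -/
theorem pow_mul (hB : BinF p2 top la) (h3 : P3 p3) (i : N.M) {y : N.M} (hy : Od y) :
    Cg p2 (i + 5) (p3 (p2 (i + 2)) * y) (y + p2 (i + 4)) := by
  obtain ⟨k, hk⟩ := powP hB h3 i
  have e' : i + 5 = i + 4 + 1 := by ring
  rw [hk, e']
  exact mulodd hB hy

theorem TT.toZZ (hB : BinF p2 top la) (h3 : P3 p3) {i y : N.M} (h : TT p2 i y) :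
    ZZ p2 (i + 1) (p3 (p2 (i + 2)) * y) := by
  have h1 := pow_mul hB h3 i (h.od hB)
  have e : i + 1 + 4 = i + 5 := by ring
  have e' : i + 5 = i + 4 + 1 := by ring
  have hd : p2 (i + 4) + p2 (i + 4) = p2 (i + 5) := by rw [e', hB.p2_succ]
  have h0 : Cg p2 (i + 5) (p2 (i + 5)) 0 := p2_cg_zero hB le_rfl
  unfold ZZ
  rw [e]
  rcases h with h | h
  · left
    refine h1.trans hB ?_
    have h2 := h.add (p2 (i + 4))
    rw [add_assoc, hd] at h2
    refine h2.trans hB ?_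
    have h4 := h0.add 9
    rw [zero_add, add_comm (p2 (i + 5)) 9] at h4
    exact h4
  · right
    have h2 := h1.add 9
    refine h2.trans hB ?_
    have h4 := h.add (p2 (i + 4))
    rw [hd] at h4
    have e5 : y + p2 (i + 4) + 9 = y + 9 + p2 (i + 4) := by ring
    rw [e5]
    exact h4.trans hB h0

theorem ZZ.toTT (hB : BinF p2 top la) (h3 : P3 p3) {i y : N.M} (h : ZZ p2 (i + 1) y) :
    TT p2 i (p3 (p2 (i + 2)) * y) := by
  have h1 := pow_mul hB h3 i (h.od hB)
  have e : i + 1 + 4 = i + 5 := by ring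
  unfold ZZ at h
  rw [e] at h
  rcases h with h | h
  · left
    exact h1.trans hB (h.add _)
  · right
    have h2 := h1.add 9
    refine h2.trans hB ?_
    have h4 := h.add (p2 (i + 4))
    have e5 : y + p2 (i + 4) + 9 = y + 9 + p2 (i + 4) := by ring
    rw [e5]
    rw [zero_add] at h4
    exact h4

theorem exists_ZZ (hB : BinF p2 top la) (h3 : P3 p3) {z : N.M} (hz : Cl p2 7 9 z) (i : N.M) :
    ∃ m, ZZ p2 i (p3 m * z) := by
  have hg := h3.gf
  refine ind_S1 (P := fun i => ∃ m, ZZ p2 i (p3 m * z)) ?_ ?_ ?_ i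
  · exact S1.ex (ZZ.D1' hB (DG.var 1) (DG.mul (DG.app hg (DG.var 0)) (DG.const z))).1
  · refine ⟨0, ?_⟩
    unfold ZZ
    rw [h3.zero, one_mul, zero_add]
    rcases hz with hz | hz
    · right
      have h1 := hz.add 9
      have h2 := cg16 (N := N) hB (a := 16) (b := 0) (c := 0) (d := 1) (by norm_num)
      have e : ((16 : ℕ) : N.M) = ((7 : ℕ) : N.M) + 9 := by norm_num
      rw [e, Nat.cast_zero] at h2
      exact h1.trans hB h2
    · left
      exact_mod_cast hz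
  · rintro j ⟨m, hm⟩
    rcases hm.next hB with h | h
    · exact ⟨m, h⟩
    · refine ⟨p2 (j + 2) + m, ?_⟩
      rw [h3.add, mul_assoc]
      exact h.toZZ hB h3

/-- ticks exist -/
theorem exists_tick2 (hB : BinF p2 top la) (h3 : P3 p3) {z : N.M} (hz : Cl p2 7 9 z)
    (i : N.M) : ∃ m, TT p2 i (p3 m * z) := by
  obtain ⟨m, hm⟩ := exists_ZZ hB h3 hz i
  rcases hm.next hB with h | h
  · refine ⟨p2 (i + 2) + m, ?_⟩
    rw [h3.add, mul_assoc]
    exact h.toTT hB h3
  · exact ⟨m, h⟩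

/-- a class of ticks is periodic -/
theorem TT.per (hB : BinF p2 top la) (h3 : P3 p3) {i y : N.M} (h : TT p2 i y) :
    TT p2 i (p3 (p2 (i + 3)) * y) := by
  obtain ⟨k, hk⟩ := powP hB h3 (i + 1)
  have e1 : i + 1 + 2 = i + 3 := by ring
  have e2 : i + 1 + 4 = i + 5 := by ring
  rw [e1, e2] at hk
  refine h.cg hB (R := i + 5) ?_ le_rfl
  have e : p3 (p2 (i + 3)) * y = y + p2 (i + 5) * ((k + k + 1) * y) := by
    rw [hk]; ring
  rw [e]
  exact (Cg.of_add _ _ _).symm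

/-- ticks exist: all odd numbers, high powers -/
theorem exists_tick (hB : BinF p2 top la) (h3 : P3 p3) {w : N.M} (hw : Od w) (i : N.M) :
    ∃ m, 8 ≤ m ∧ TT p2 i (p3 m * w) := by
  have key : ∀ z : N.M, Cl p2 7 9 z → ∃ m, 8 ≤ m ∧ TT p2 i (p3 m * z) := by
    intro z hz
    obtain ⟨m, hm⟩ := exists_tick2 hB h3 hz i
    refine ⟨p2 (i + 3) + m, ?_, ?_⟩
    · have e : p2 (i + 3) = p2 i * 8 := by
        have : i + 3 = i + 1 + 1 + 1 := by ring
        rw [this, hB.p2_succ, hB.p2_succ, hB.p2_succ]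
        ring
      have h1 : (8 : N.M) ≤ p2 i * 8 :=
        le_mul_of_one_le_left (zero_le' _) (one_le_of_pos (hB.p2_pos i))
      rw [e]
      exact h1.trans (le_add_of_nonneg_right (zero_le' _))
    · rw [h3.add, mul_assoc]
      exact hm.per hB h3
  have up : ∀ y : N.M, (∃ m, 8 ≤ m ∧ TT p2 i (p3 m * (3 * y))) →
      ∃ m, 8 ≤ m ∧ TT p2 i (p3 m * y) := by
    rintro y ⟨m, hm, h⟩
    refine ⟨m + 1, hm.trans (lt1 m).le, ?_⟩
    have e : p3 (m + 1) * y = p3 m * (3 * y) := by rw [h3.succ']; ring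
    rw [e]
    exact h
  obtain ⟨k, rfl⟩ := hw
  rcases cl_cover hB k with h | h | h | h
  · refine up _ (up _ (key _ ?_))
    exact (h.step hB (a' := 3) (b' := 13) (by norm_num)).step hB (by norm_num)
  · refine up _ (key _ ?_)
    exact h.step hB (by norm_num)
  · exact key _ h
  · refine up _ (up _ (up _ (key _ ?_)))
    exact ((h.step hB (a' := 1) (b' := 15) (by norm_num)).step hB
      (a' := 3) (b' := 13) (by norm_num)).step hB (by norm_num)

end Run7.h950
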