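import Mathlib
import Pool.Agent.Run7.h950.Tick

/-!
The level functions: the events, the flip sets `SS`, and the parities of their sums.
-/

namespace Run7.h950

open Pool.Agent.Helper617.RM Pool.Agent.H645R2.R

universe u

set_option linter.unusedSectionVars false
set_option linter.unusedVariables false

variable {N : L2Structure.{u}} [IsModelRCA0 N]

/-! ### stages -/

/-- `i` is enumerated exactly at stage `s` -/
def En (W : N.M → N.M → Prop) (i s : N.M) : Prop := W s i ∧ ∀ s', s' < s → ¬ W s' i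

section

variable {p2 top la p3 : N.M → N.M} {W : N.M → N.M → Prop}

theorem En.D1' (hE : Enum W) {f g : Ctx N → N.M} (hf : DG f) (hg : DG g) :
    D1 (fun v => En W (f v) (g v)) := by
  refine D1.and (D1.app2 (R := W) (D1.of hE.hW) hg hf) ?_
  exact D1.ball (P := fun v s' => ¬ W s' (f v)) hg
    (D1.app2 (R := W) (D1.of hE.hW) (DG.var 0) hf.tail).not

theorem En.unique {i s s' : N.M} (h : En W i s) (h' : En W i s') : s = s' := by
  rcases lt_trichotomy s s' with h1 | h1 | h1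
  · exact absurd h.1 (h'.2 _ h1)
  · exact h1
  · exact absurd h'.1 (h.2 _ h1)

theorem exists_En (hE : Enum W) {i t : N.M} (h : W t i) : ∃ s, En W i s := by
  obtain ⟨s, -, hs, hmin⟩ := lnp_S1 (P := fun s => W s i)
    (D1.app2 (R := W) (D1.of hE.hW) (DG.var 0) (DG.const i)).1 t h
  exact ⟨s, hs, hmin⟩

theorem En.le {P M i s : N.M} (hbd : Bd W P M) (hi : i < P) (h : En W i s) : s ≤ M := by
  by_contra hcon
  exact h.2 M (not_le.1 hcon) (hbd i hi s h.1)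

/-! ### the conditions -/

/-- some multiple of `z` by a power of `3` is a tick of class `i` while the multiple of `v` is
still below `2 ^ s` -/
def KK (p2 p3 : N.M → N.M) (β : Prop) (i z v s : N.M) : Prop :=
  ∃ m, (0 < m ∨ β) ∧ TT p2 i (p3 m * z) ∧ p3 m * v < p2 s

/-- bounded form -/
def KKb (p2 p3 : N.M → N.M) (β : Prop) (i z v s : N.M) : Prop :=
  ∃ m, m < s ∧ ((0 < m ∨ β) ∧ (TT p2 i (p3 m * z) ∧ p3 m * v < p2 s))

theorem kkb_iff (hB : BinF p2 top la) (h3 : P3 p3) {β : Prop} {i z v s : N.M} (hv : 0 < v) :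
    KKb p2 p3 β i z v s ↔ KK p2 p3 β i z v s := by
  constructor
  · rintro ⟨m, -, h1, h2, h3⟩
    exact ⟨m, h1, h2, h3⟩
  · rintro ⟨m, h1, h2, h4⟩
    exact ⟨m, h3.lt_of hB hv h4, h1, h2, h4⟩

theorem KKb.D1' (hB : BinF p2 top la) (h3 : P3 p3) (β : Prop) {f g h k : Ctx N → N.M}
    (hf : DG f) (hg : DG g) (hh : DG h) (hk : DG k) :
    D1 (fun v => KKb p2 p3 β (f v) (g v) (h v) (k v)) := by
  have hp2 := hB.hp2
  have hp3 := h3.gf
  refine D1.bex (P := fun v m => (0 < m ∨ β) ∧ (TT p2 (f v) (p3 m * g v) ∧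
    p3 m * h v < p2 (k v))) hk ?_
  refine D1.and (D1.or (D1.lt (DG.const 0) (DG.var 0)) (D1.const β)) (D1.and ?_ ?_)
  · exact TT.D1' hB hf.tail (DG.mul (DG.app hp3 (DG.var 0)) hg.tail)
  · exact D1.lt (DG.mul (DG.app hp3 (DG.var 0)) hh.tail) (DG.app hp2 hk.tail)

theorem KK.cg (hB : BinF p2 top la) {β : Prop} {i z z' v s R : N.M}
    (h : KK p2 p3 β i z v s) (hz : Cg p2 R z z') (hR : i + 5 ≤ R) : KK p2 p3 β i z' v s := by
  obtain ⟨m, h1, h2, h4⟩ := h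
  exact ⟨m, h1, h2.cg hB (hz.mul _) hR, h4⟩

theorem KK.weaken {i z v s : N.M} (h : KK p2 p3 False i z v s) : KK p2 p3 True i z v s := by
  obtain ⟨m, h1, h2, h4⟩ := h
  exact ⟨m, Or.inr trivial, h2, h4⟩

theorem KK.strong (h3 : P3 p3) {i z v s : N.M} (h : KK p2 p3 True i z v s)
    (hT : ¬ TT p2 i z) : KK p2 p3 False i z v s := by
  obtain ⟨m, h1, h2, h4⟩ := h
  refine ⟨m, Or.inl (Pool.Agent.Helper617.RM.pos_of_ne_zero ?_), h2, h4⟩
  rintro rfl
  rw [h3.zero, one_mul] at h2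
  exact hT h2

/-- the flip sets: the gap of `z` which contains the stage of the enumeration of `g` is good for
`g` and not good for any `i < g` -/
def SS (p2 p3 : N.M → N.M) (W : N.M → N.M → Prop) (β : Prop) (g z : N.M) : Prop :=
  ∃ s b v x, z = v + p2 b * (x + x + 1) ∧ 0 < v ∧ s ≤ b ∧ En W g s ∧ KK p2 p3 β g z v s ∧
    ∀ i, i < g → ∀ s', s' ≤ b → En W i s' → ¬ KK p2 p3 β i z v s'

theorem SS.D1' (hB : BinF p2 top la) (h3 : P3 p3) (hE : Enum W) (β : Prop) :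
    D1 (fun v : Ctx N => SS p2 p3 W β (v 0) (v 1)) := by
  have hp2 := hB.hp2
  have hp3 := h3.gf
  have h1 : D1 (fun v : Ctx N => ∃ s, s < v 1 + 1 ∧ ∃ b, b < v 1 + 1 ∧ ∃ w, w < v 1 + 1 ∧
      ∃ x, x < v 1 + 1 ∧ (v 1 = w + p2 b * (x + x + 1) ∧ (0 < w ∧ (s < b + 1 ∧ (En W (v 0) s ∧
      (KKb p2 p3 β (v 0) (v 1) w s ∧ ∀ i, i < v 0 → ∀ s', s' < b + 1 → (En W i s' →
        ¬ KKb p2 p3 β i (v 1) w s'))))))) := by
    (repeat' (first | assumption | exact DG.var _ | refine DG.add ?_ ?_ | refine DG.mul ?_ ?_ |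
        refine DG.app (by assumption) ?_ | exact DG.const _ |
        refine En.D1' hE ?_ ?_ | refine KKb.D1' hB h3 β ?_ ?_ ?_ ?_ |
        refine D1.and ?_ ?_ | refine D1.or ?_ ?_ | refine D1.bex ?_ ?_ | refine D1.ball ?_ ?_ |
        refine D1.not ?_ | refine D1.imp ?_ ?_ |
        refine D1.lt ?_ ?_ | refine D1.eq ?_ ?_))
  refine D1.congr h1 fun v => ?_
  constructor
  · rintro ⟨s, -, b, -, w, -, x, -, h1, h2, h4, h5, h6, h7⟩
    refine ⟨s, b, w, x, h1, h2, le_of_lt1 h4, h5, (kkb_iff hB h3 h2).1 h6, ?_⟩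
    intro i hi s' hs' he hk
    exact h7 i hi s' (lt1_of_le hs') he ((kkb_iff hB h3 h2).2 hk)
  · rintro ⟨s, b, w, x, h1, h2, h4, h5, h6, h7⟩
    have hpb := hB.p2_pos b
    have hb : b ≤ v 1 := by
      have h8 : p2 b ≤ p2 b * (x + x + 1) :=
        le_mul_of_one_le_right (zero_le' _) (le_add_of_nonneg_left (zero_le' _))
      rw [h1]
      exact ((hB.lt_p2 b).le.trans h8).trans (le_add_of_nonneg_left (zero_le' _))
    refine ⟨s, lt1_of_le (h4.trans hb), b, lt1_of_le hb, w, ?_, x, ?_, h1, h2, lt1_of_le h4, h5,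
      (kkb_iff hB h3 h2).2 h6, ?_⟩
    · rw [h1]
      exact lt1_of_le (le_add_of_nonneg_right (zero_le' _))
    · rw [h1]
      have h8 : x ≤ x + x + 1 := (le_add_of_nonneg_right (zero_le' x)).trans
        (le_add_of_nonneg_right (zero_le' _))
      have h9 : x + x + 1 ≤ p2 b * (x + x + 1) :=
        le_mul_of_one_le_left (zero_le' _) (one_le_of_pos hpb)
      exact lt1_of_le ((h8.trans h9).trans (le_add_of_nonneg_left (zero_le' _)))
    · intro i hi s' hs' he hk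
      exact h7 i hi s' (le_of_lt1 hs') he ((kkb_iff hB h3 h2).1 hk)

/-! ### parities of sums -/

open ColEx2 in
theorem exists_par (P : N.M → N.M → Prop) (hP : D1 (fun v : Ctx N => P (v 0) (v 1))) :
    ∃ H : N.M → N.M → ZMod 2, (∀ j, D1 (fun v : Ctx N => H (v 0) (v 1) = j)) ∧
      (∀ z, H 0 z = 0) ∧ (∀ g z, P g z → H (g + 1) z = H g z + 1) ∧
      (∀ g z, ¬ P g z → H (g + 1) z = H g z) := by
  classical
  have hinc : GF (inc : N.M → N.M) := inc_GF
  have hlt : ∀ g z : N.M, pr g z < pr (g + 1) z := fun g z => pr_lt_pr (by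
    have : g + 1 + z = (g + z) + 1 := by ring
    rw [this]
    exact lt1 _)
  have hpdex : ∀ n : N.M, ∃ m, (∃ g, g < n + 1 ∧ ∃ z, z < n + 1 ∧ (n = pr (g + 1) z ∧
      m = pr g z)) ∨ (¬ (∃ g, g < n + 1 ∧ ∃ z, z < n + 1 ∧ n = pr (g + 1) z) ∧ m = 0) := by
    intro n
    by_cases h : ∃ g, g < n + 1 ∧ ∃ z, z < n + 1 ∧ n = pr (g + 1) z
    · obtain ⟨g, hg, z, hz, h⟩ := h
      exact ⟨pr g z, Or.inl ⟨g, hg, z, hz, h, rfl⟩⟩
    · exact ⟨0, Or.inr ⟨h, rfl⟩⟩
  choose pd hpd using hpdex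
  have huniq : ∀ n m, ((∃ g, g < n + 1 ∧ ∃ z, z < n + 1 ∧ (n = pr (g + 1) z ∧
      m = pr g z)) ∨ (¬ (∃ g, g < n + 1 ∧ ∃ z, z < n + 1 ∧ n = pr (g + 1) z) ∧ m = 0)) →
      m = pd n := by
    intro n m hm
    rcases hm with ⟨g, hg, z, hz, h1, h2⟩ | ⟨h1, h2⟩
    · rcases hpd n with ⟨g', hg', z', hz', h1', h2'⟩ | ⟨h1', h2'⟩
      · obtain ⟨e1, e2⟩ := pr_inj (h1.symm.trans h1')
        rw [h2, h2', add_cancel' e1, e2]
      · exact absurd ⟨g, hg, z, hz, h1⟩ h1'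
    · rcases hpd n with ⟨g', hg', z', hz', h1', h2'⟩ | ⟨h1', h2'⟩
      · exact absurd ⟨g', hg', z', hz', h1'⟩ h1
      · rw [h2, h2']
  have hpdGF : GF pd := by
    refine GF.graph (D1.congr (R := fun v => (∃ g, g < v 0 + 1 ∧ ∃ z, z < v 0 + 1 ∧
      (v 0 = pr (g + 1) z ∧ v 1 = pr g z)) ∨
      (¬ (∃ g, g < v 0 + 1 ∧ ∃ z, z < v 0 + 1 ∧ v 0 = pr (g + 1) z) ∧ v 1 = 0)) ?_ ?_)
    · (repeat' (first | assumption | exact DG.var _ | refine DG.pr ?_ ?_ | refine DG.add ?_ ?_ |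
        exact DG.const _ |
        refine D1.and ?_ ?_ | refine D1.or ?_ ?_ | refine D1.not ?_ | refine D1.bex ?_ ?_ |
        refine D1.eq ?_ ?_))
    · intro v
      exact ⟨fun h' => huniq _ _ h', fun h' => by rw [h']; exact hpd _⟩
  have hpdlt : ∀ n, 0 < n → pd n < n := by
    intro n hn
    rcases hpd n with ⟨g', hg', z', hz', h1', h2'⟩ | ⟨h1', h2'⟩
    · rw [h2']
      conv_rhs => rw [h1']
      exact hlt _ _
    · rw [h2']
      exact hn
  have hpdsucc : ∀ g z, pd (pr (g + 1) z) = pr g z := by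
    intro g z
    refine (huniq _ _ (Or.inl ⟨g, ?_, z, ?_, rfl, rfl⟩)).symm
    · exact (lt1 g).trans (lt1_of_le (fst_le_pr _ _))
    · exact lt1_of_le (snd_le_pr _ _)
  have hpdzero : ∀ z, pd (pr 0 z) = 0 := by
    intro z
    refine (huniq _ _ (Or.inr ⟨?_, rfl⟩)).symm
    rintro ⟨g, -, z', -, h⟩
    exact absurd (pr_inj h).1.symm (lt_of_le_of_lt (zero_le' g) (lt1 g)).ne'
  obtain ⟨Act, hAct⟩ : ∃ Act : N.M → Prop, ∀ n, Act n ↔ ∃ g, g < n + 1 ∧ ∃ z, z < n + 1 ∧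
      (n = pr (g + 1) z ∧ P g z) := ⟨_, fun n => Iff.rfl⟩
  have hPD : ∀ {s t : Ctx N → N.M}, DG s → DG t → D1 (fun v => P (s v) (t v)) :=
    fun hs ht => D1.app2 (R := P) hP hs ht
  have hActD : D1 (fun v : Ctx N => Act (v 0)) := by
    refine D1.congr (R := fun v => ∃ g, g < v 0 + 1 ∧ ∃ z, z < v 0 + 1 ∧
      (v 0 = pr (g + 1) z ∧ P g z)) ?_ (fun v => (hAct _).symm)
    (repeat' (first | assumption | exact DG.var _ | refine DG.pr ?_ ?_ | refine DG.add ?_ ?_ |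
        exact DG.const _ | refine hPD ?_ ?_ |
        refine D1.and ?_ ?_ | refine D1.or ?_ ?_ | refine D1.not ?_ | refine D1.bex ?_ ?_ |
        refine D1.eq ?_ ?_))
  have hActs : ∀ g z, Act (pr (g + 1) z) ↔ P g z := by
    intro g z
    rw [hAct]
    constructor
    · rintro ⟨g', -, z', -, h1, h2⟩
      obtain ⟨e1, e2⟩ := pr_inj h1
      rw [add_cancel' e1, e2]
      exact h2
    · intro h
      exact ⟨g, (lt1 g).trans (lt1_of_le (fst_le_pr _ _)), z, lt1_of_le (snd_le_pr _ _), rfl, h⟩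
  have hAct0 : ∀ z, ¬ Act (pr 0 z) := by
    intro z h
    rw [hAct] at h
    obtain ⟨g, -, z', -, h, -⟩ := h
    exact absurd (pr_inj h).1.symm (lt_of_le_of_lt (zero_le' g) (lt1 g)).ne'
  obtain ⟨st, hst⟩ : ∃ st : N.M → N.M → N.M, ∀ n s, st n s =
      if Act n then inc s else s := ⟨_, fun _ _ => rfl⟩
  have hstD : D1 (fun v : Ctx N => v 2 = st (v 0) (v 1)) := by
    refine D1.congr (R := fun v => (Act (v 0) ∧ v 2 = inc (v 1)) ∨
      (¬ Act (v 0) ∧ v 2 = v 1)) ?_ ?_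
    · (repeat' (first | assumption | exact DG.var _ | refine DG.add ?_ ?_ |
        refine DG.app (by assumption) ?_ | exact DG.const _ |
        refine D1.and ?_ ?_ | refine D1.or ?_ ?_ |
        refine D1.not ?_ | refine D1.eq ?_ ?_))
    · intro v
      rw [hst]
      by_cases h1 : Act (v 0)
      · simp [h1]
      · simp [h1]
  obtain ⟨Φ, hΦ, hΦ0, hΦs⟩ := recur N pd st 0 hpdGF hstD hpdlt
  have hs : ∀ g z, Φ (pr (g + 1) z) = if P g z then inc (Φ (pr g z)) else Φ (pr g z) := by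
    intro g z
    have hpos : 0 < pr (g + 1) z := (zero_le' _).trans_lt (hlt g z)
    rw [hΦs _ hpos, hst, hpdsucc]
    by_cases h : P g z
    · rw [if_pos h, if_pos ((hActs g z).2 h)]
    · rw [if_neg h, if_neg (fun h' => h ((hActs g z).1 h'))]
  have h0 : ∀ z, Φ (pr 0 z) = 0 := by
    intro z
    rcases (zero_le' (pr 0 z)).lt_or_eq with h | h
    · rw [hΦs _ h, hst, hpdzero, if_neg (hAct0 z), hΦ0]
    · rw [← h, hΦ0]
  refine ⟨fun g z => tZ (Φ (pr g z)), ?_, ?_, ?_, ?_⟩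
  · intro j
    have hg : DG (fun v : Ctx N => Φ (pr (v 0) (v 1))) :=
      DG.app hΦ (DG.pr (DG.var 0) (DG.var 1))
    rcases hj2 j with rfl | rfl
    · exact D1.congr (R := fun v => Φ (pr (v 0) (v 1)) = 0) (D1.eq hg (DG.const 0))
        (fun v => (tZ_zero _).symm)
    · exact D1.congr (R := fun v => ¬ Φ (pr (v 0) (v 1)) = 0)
        (D1.not (D1.eq hg (DG.const 0))) (fun v => (tZ_one _).symm)
  · intro z
    show tZ (Φ (pr 0 z)) = 0
    rw [h0]
    exact (tZ_zero _).2 rfl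
  · intro g z h
    show tZ (Φ (pr (g + 1) z)) = tZ (Φ (pr g z)) + 1
    rw [hs, if_pos h, tZ_inc]
  · intro g z h
    show tZ (Φ (pr (g + 1) z)) = tZ (Φ (pr g z))
    rw [hs, if_neg h]

/-- the function `H g z` is the parity of the number of `i < g` with `SS i z` -/
structure HS (p2 p3 : N.M → N.M) (W : N.M → N.M → Prop) (β : Prop)
    (H : N.M → N.M → ZMod 2) : Prop where
  dH : ∀ j, D1 (fun v : Ctx N => H (v 0) (v 1) = j)
  zero : ∀ z, H 0 z = 0
  s1 : ∀ g z, SS p2 p3 W β g z → H (g + 1) z = H g z + 1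
  s0 : ∀ g z, ¬ SS p2 p3 W β g z → H (g + 1) z = H g z

theorem exists_HS (hB : BinF p2 top la) (h3 : P3 p3) (hE : Enum W) (β : Prop) :
    ∃ H, HS p2 p3 W β H := by
  obtain ⟨H, h1, h2, h4, h5⟩ := exists_par (SS p2 p3 W β) (SS.D1' hB h3 hE β)
  exact ⟨H, h1, h2, h4, h5⟩

theorem HS.iff {β : Prop} {H : N.M → N.M → ZMod 2} (h : HS p2 p3 W β H) (g z : N.M) :
    H (g + 1) z ≠ H g z ↔ SS p2 p3 W β g z := by
  constructor
  · intro h1
    by_contra h2
    exact h1 (h.s0 g z h2)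
  · intro h1
    rw [h.s1 g z h1]
    exact (by decide : ∀ x : ZMod 2, x + 1 ≠ x) _

theorem HS.app {β : Prop} {H : N.M → N.M → ZMod 2} (h : HS p2 p3 W β H) {f g : Ctx N → N.M}
    (hf : DG f) (hg : DG g) : CG2 (fun v => H (f v) (g v)) := fun j =>
  D1.app2 (R := fun a b => H a b = j) (h.dH j) hf hg

end

end Run7.h950
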