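import Mathlib
import Pool.Agent.Run7.h950.Level

/-!
The combinatorial core: ends of the flip sets, continuity, and the effect of appending a far
number.
-/

namespace Run7.h950

open Pool.Agent.Helper617.RM Pool.Agent.H645R2.R

universe u

set_option linter.unusedSectionVars false
set_option linter.unusedVariables false

variable {N : L2Structure.{u}} [IsModelRCA0 N]
variable {p2 top la p3 : N.M → N.M} {W : N.M → N.M → Prop}

/-! ### ends of the flip sets -/

/-- inside a block a flip set can only end at its own ticks -/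
theorem SS.re0 (h3 : P3 p3) {g z : N.M} (h : SS p2 p3 W True g z) (hT : ¬ TT p2 g z) :
    SS p2 p3 W False g z := by
  obtain ⟨s, b, v, x, h1, h2, h4, h5, h6, h7⟩ := h
  exact ⟨s, b, v, x, h1, h2, h4, h5, h6.strong h3 hT,
    fun i hi s' hs' he hk => h7 i hi s' hs' he hk.weaken⟩

/-- the flip sets of the lower levels do not end at the ticks of level `g` -/
theorem SS.wp0 (hB : BinF p2 top la) (h3 : P3 p3) {g i z : N.M} (hT : TT p2 g z)
    (hi : i < g) : SS p2 p3 W True i z ↔ SS p2 p3 W False i z := by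
  have hn : ∀ j, j < g → ¬ TT p2 j z := fun j hj h => h.disj hB hT hj
  constructor
  · exact fun h => h.re0 h3 (hn i hi)
  · rintro ⟨s, b, v, x, h1, h2, h4, h5, h6, h7⟩
    exact ⟨s, b, v, x, h1, h2, h4, h5, h6.weaken,
      fun j hj s' hs' he hk => h7 j hj s' hs' he (hk.strong h3 (hn j (hj.trans hi)))⟩

theorem HS.wp0 (hB : BinF p2 top la) (h3 : P3 p3) {H1 H0 : N.M → N.M → ZMod 2}
    (hH1 : HS p2 p3 W True H1) (hH0 : HS p2 p3 W False H0) {g z : N.M} (hT : TT p2 g z) :
    H1 g z = H0 g z := by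
  have key : ∀ i, i ≤ g → H1 i z = H0 i z := by
    intro i
    refine ind_S1 (P := fun i => i ≤ g → H1 i z = H0 i z) ?_ ?_ ?_ i
    · exact (D1.imp (D1.le (DG.var 0) (DG.const g))
        (CG2.eq (hH1.app (DG.var 0) (DG.const z)) (hH0.app (DG.var 0) (DG.const z)))).1
    · intro _
      rw [hH1.zero, hH0.zero]
    · intro j ih hj
      have hj' : j < g := (lt1 j).trans_le hj
      by_cases h : SS p2 p3 W True j z
      · rw [hH1.s1 j z h, hH0.s1 j z ((SS.wp0 hB h3 hT hj').1 h), ih hj'.le]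
      · rw [hH1.s0 j z h, hH0.s0 j z (fun h' => h ((SS.wp0 hB h3 hT hj').2 h')), ih hj'.le]
  exact key g le_rfl

theorem four_of (hB : BinF p2 top la) (h3 : P3 p3) {i m z : N.M} (hm : 0 < m)
    (hz : Cl p2 7 9 z) (hT : TT p2 i (p3 m * z)) : ∃ m', m = m' + 4 := by
  rcases lt_or_ge m 4 with h | h
  · exfalso
    have h' : m < ((4 : ℕ) : N.M) := by exact_mod_cast h
    obtain ⟨k, hk, rfl⟩ := lt_cases 4 m h'
    have hA := hT.A2 hB
    have c1 : Cl p2 5 11 (3 * z) := hz.step hB (by norm_num)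
    have c2 : Cl p2 1 15 (3 * (3 * z)) := c1.step hB (by norm_num)
    have c3 : Cl p2 3 13 (3 * (3 * (3 * z))) := c2.step hB (by norm_num)
    have e0 : p3 0 = 1 := h3.zero
    have e1 : p3 1 = 3 := by
      have := h3.succ' 0
      rw [zero_add] at this
      rw [this, e0]; norm_num
    have e2 : p3 2 = 9 := by
      have := h3.succ' 1
      have e : (1 : N.M) + 1 = 2 := by norm_num
      rw [e] at this
      rw [this, e1]; norm_num
    have e3 : p3 3 = 27 := by
      have := h3.succ' 2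
      have e : (2 : N.M) + 1 = 3 := by norm_num
      rw [e] at this
      rw [this, e2]; norm_num
    interval_cases k
    · rw [Nat.cast_zero] at hm
      exact lt_irrefl _ hm
    · rw [Nat.cast_one, e1] at hA
      exact c1.excl hB hA (by norm_num) (by norm_num)
    · have e : ((2 : ℕ) : N.M) = 2 := by norm_num
      rw [e, e2] at hA
      have e' : (9 : N.M) * z = 3 * (3 * z) := by ring
      rw [e'] at hA
      exact c2.excl hB hA (by norm_num) (by norm_num)
    · have e : ((3 : ℕ) : N.M) = 3 := by norm_num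
      rw [e, e3] at hA
      have e' : (27 : N.M) * z = 3 * (3 * (3 * z)) := by ring
      rw [e'] at hA
      exact c3.excl hB hA (by norm_num) (by norm_num)
  · obtain ⟨m', hm'⟩ := exists_sub h
    exact ⟨m', by rw [hm']; ring⟩

theorem KK.up (hB : BinF p2 top la) (h3 : P3 p3) {i z v s : N.M} (hz : Cl p2 7 9 z)
    (h : KK p2 p3 False i z v s) : KK p2 p3 True i (81 * z) (81 * v) s := by
  obtain ⟨m, h1, h2, h4⟩ := h
  obtain ⟨m', rfl⟩ := four_of hB h3 (h1.resolve_right not_false) hz h2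
  refine ⟨m', Or.inr trivial, ?_, ?_⟩
  · have e : p3 m' * (81 * z) = p3 (m' + 4) * z := by rw [h3.add, h3.four]; ring
    rw [e]; exact h2
  · have e : p3 m' * (81 * v) = p3 (m' + 4) * v := by rw [h3.add, h3.four]; ring
    rw [e]; exact h4

theorem KK.down (h3 : P3 p3) {i z v s : N.M}
    (h : KK p2 p3 True i (81 * z) (81 * v) s) : KK p2 p3 False i z v s := by
  obtain ⟨m, h1, h2, h4⟩ := h
  refine ⟨m + 4, Or.inl ?_, ?_, ?_⟩
  · exact lt_of_lt_of_le (by norm_num) (le_add_of_nonneg_left (zero_le' m))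
  · have e : p3 (m + 4) * z = p3 m * (81 * z) := by rw [h3.add, h3.four]; ring
    rw [e]; exact h2
  · have e : p3 (m + 4) * v = p3 m * (81 * v) := by rw [h3.add, h3.four]; ring
    rw [e]; exact h4

/-- from a block to the next one -/
theorem SS.re2 (hB : BinF p2 top la) (h3 : P3 p3) {g z : N.M} (hz : Cl p2 7 9 z)
    (h : SS p2 p3 W False g z) : SS p2 p3 W True g (81 * z) := by
  obtain ⟨s, b, v, x, h1, h2, h4, h5, h6, h7⟩ := h
  refine ⟨s, b, 81 * v, 81 * x + 40, ?_, ?_, h4, h5, h6.up hB h3 hz, ?_⟩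
  · conv_lhs => rw [h1]
    ring
  · exact mul_pos (by norm_num) h2
  · exact fun i hi s' hs' he hk => h7 i hi s' hs' he (hk.down h3)

/-! ### decompositions -/

theorem decomp (hB : BinF p2 top la) {R r q s b v x : N.M} (hr : r < p2 R) (hs : s ≤ R)
    (hv : v < p2 s) (hsb : s ≤ b) (h : r + p2 R * q = v + p2 b * (x + x + 1)) :
    (b < R ∧ ∃ y, r = v + p2 b * (y + y + 1)) ∨ (R ≤ b ∧ r = v) := by
  have hle : ∀ {a c : N.M}, a ≤ c → p2 a ≤ p2 c := by
    intro a c hac
    rcases eq_or_lt_of_le hac with e | e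
    · rw [e]
    · exact (hB.p2_lt _ _ e).le
  rcases lt_or_ge b R with hb | hb
  · left
    refine ⟨hb, ?_⟩
    obtain ⟨d, hd⟩ := exists_sub (succ_le' hb)
    obtain ⟨y, y', hy, hx⟩ := hB.modp x d
    refine ⟨y, ?_⟩
    have e1 : v + p2 b * (x + x + 1) = (v + p2 b * (y + y + 1)) + p2 R * y' := by
      rw [hx, hd, hB.p2_add, hB.p2_succ]
      ring
    rw [e1] at h
    have h2 : v + p2 b * (y + y + 1) < p2 R := by
      have h5 : v < p2 b := hv.trans_le (hle hsb)
      calc v + p2 b * (y + y + 1) < p2 b + p2 b * (y + y + 1) := by gcongr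
        _ = p2 (b + 1) * (y + 1) := by rw [hB.p2_succ]; ring
        _ ≤ p2 (b + 1) * p2 d := by
          have := succ_le' hy
          gcongr
        _ = p2 R := by rw [hd, ← hB.p2_add]
    exact (rem_unique hr h2 h).1
  · right
    refine ⟨hb, ?_⟩
    obtain ⟨d, hd⟩ := exists_sub hb
    have e1 : v + p2 b * (x + x + 1) = v + p2 R * (p2 d * (x + x + 1)) := by
      rw [hd, hB.p2_add]; ring
    rw [e1] at h
    exact (rem_unique hr (hv.trans_le (hle hs)) h).1

theorem comp_lt (hB : BinF p2 top la) {R b v y : N.M} (hb : b < R) (q : N.M) :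
    ∃ x, (v + p2 b * (y + y + 1)) + p2 R * q = v + p2 b * (x + x + 1) := by
  obtain ⟨d, hd⟩ := exists_sub (succ_le' hb)
  refine ⟨y + p2 d * q, ?_⟩
  rw [hd, hB.p2_add, hB.p2_succ]
  ring

theorem comp_ge (hB : BinF p2 top la) {R v : N.M} {q : N.M} (hq : 0 < q) :
    ∃ b x, R ≤ b ∧ v + p2 R * q = v + p2 b * (x + x + 1) := by
  obtain ⟨x, hx⟩ := hB.la_eq q hq
  refine ⟨R + la q, x, le_add_of_nonneg_right (zero_le' _), ?_⟩
  rw [hB.p2_add, mul_assoc, ← hx]

theorem KK.pos_lt (hB : BinF p2 top la) (h3 : P3 p3) {β : Prop} {i z v s : N.M}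
    (h : KK p2 p3 β i z v s) : v < p2 s := by
  obtain ⟨m, -, -, h1⟩ := h
  exact (le_mul_of_one_le_left (zero_le' _) (one_le_of_pos (h3.pos m))).trans_lt h1

/-! ### continuity -/

theorem SS.cl (hB : BinF p2 top la) (h3 : P3 p3) {β : Prop} {g i R M r q q' : N.M}
    (hbd : Bd W g M) (hM : M ≤ R) (hR : g + 4 ≤ R) (hr : r < p2 R) (hq' : 0 < q') (hi : i < g)
    (h : SS p2 p3 W β i (r + p2 R * q)) : SS p2 p3 W β i (r + p2 R * q') := by
  obtain ⟨s, b, v, x, h1, h2, h4, h5, h6, h7⟩ := h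
  have hs : s ≤ R := (h5.le hbd hi).trans hM
  have hcg : Cg p2 R (r + p2 R * q) (r + p2 R * q') := ⟨r, q, q', rfl, rfl⟩
  have hRi : ∀ j, j < g → j + 5 ≤ R := fun j hj => by
    have h8 : j + 5 = (j + 1) + 4 := by ring
    rw [h8]
    exact (add_le_add_left (succ_le' hj) 4).trans hR
  have h6' := h6.cg hB hcg (hRi i hi)
  have hv := h6.pos_lt hB h3
  have h7' : ∀ j, j < i → ∀ s', s' ≤ b → En W j s' →
      ¬ KK p2 p3 β j (r + p2 R * q') v s' := fun j hj s' hs' he hk =>
    h7 j hj s' hs' he (hk.cg hB hcg.symm (hRi j (hj.trans hi)))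
  rcases decomp hB hr hs hv h4 h1 with ⟨hb, y, hy⟩ | ⟨hb, hy⟩
  · obtain ⟨x', hx'⟩ := comp_lt hB (v := v) (y := y) hb q'
    rw [← hy] at hx'
    exact ⟨s, b, v, x', hx', h2, h4, h5, h6', h7'⟩
  · obtain ⟨b', x', hb', hx'⟩ := comp_ge hB (R := R) (v := v) hq'
    rw [← hy] at hx'
    rw [← hy] at h1 h2 h6' h7'
    refine ⟨s, b', r, x', hx', h2, hs.trans hb', h5, h6', ?_⟩
    intro j hj s' hs' he
    exact h7' j hj s' (((he.le hbd (hj.trans hi)).trans hM).trans hb) he

theorem HS.cl (hB : BinF p2 top la) (h3 : P3 p3) {β : Prop} {H : N.M → N.M → ZMod 2}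
    (hH : HS p2 p3 W β H) {g R M r q q' : N.M}
    (hbd : Bd W g M) (hM : M ≤ R) (hR : g + 4 ≤ R) (hr : r < p2 R) (hq : 0 < q) (hq' : 0 < q') :
    H g (r + p2 R * q) = H g (r + p2 R * q') := by
  have key : ∀ i, i ≤ g → H i (r + p2 R * q) = H i (r + p2 R * q') := by
    intro i
    refine ind_S1 (P := fun i => i ≤ g → H i (r + p2 R * q) = H i (r + p2 R * q'))
      ?_ ?_ ?_ i
    · exact (D1.imp (D1.le (DG.var 0) (DG.const g))
        (CG2.eq (hH.app (DG.var 0) (DG.const _)) (hH.app (DG.var 0) (DG.const _)))).1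
    · intro _
      rw [hH.zero, hH.zero]
    · intro j ih hj
      have hj' : j < g := (lt1 j).trans_le hj
      by_cases h : SS p2 p3 W β j (r + p2 R * q)
      · rw [hH.s1 j _ h, hH.s1 j _ (h.cl hB h3 hbd hM hR hr hq' hj'), ih hj'.le]
      · rw [hH.s0 j _ h, hH.s0 j _ (fun h' => h (h'.cl hB h3 hbd hM hR hr hq hj')),
          ih hj'.le]
  exact key g le_rfl

/-! ### appending a far number -/

/-- some `i < g` is enumerated so late that the number `z` is still small after the next tick -/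
def QQ (p2 p3 : N.M → N.M) (W : N.M → N.M → Prop) (β : Prop) (g z : N.M) : Prop :=
  ∃ i, i < g ∧ ∃ s, En W i s ∧ KK p2 p3 β i z z s

section far

variable {β : Prop} {G B M z q : N.M}

theorem SS.far1 (hB : BinF p2 top la) (h3 : P3 p3) {g : N.M} (hbd : Bd W G M) (hM : M ≤ B)
    (hR : G + 4 ≤ B) (hz : z < p2 B) (hg : g < G)
    (h : SS p2 p3 W β g z) : SS p2 p3 W β g (z + p2 B * q) := by
  obtain ⟨s, b, v, x, h1, h2, h4, h5, h6, h7⟩ := h
  have hcg : Cg p2 B z (z + p2 B * q) := (Cg.of_add _ _ _).symm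
  have hRi : ∀ j, j < G → j + 5 ≤ B := fun j hj => by
    have h8 : j + 5 = (j + 1) + 4 := by ring
    rw [h8]
    exact (add_le_add_left (succ_le' hj) 4).trans hR
  have hb : b < B := by
    by_contra hcon
    have h8 : p2 B ≤ p2 b := by
      rcases eq_or_lt_of_le (not_lt.1 hcon) with e | e
      · rw [e]
      · exact (hB.p2_lt _ _ e).le
    have h9 : p2 b ≤ z := by
      rw [h1]
      exact (le_mul_of_one_le_right (zero_le' _) (le_add_of_nonneg_left (zero_le' _))).trans
        (le_add_of_nonneg_left (zero_le' _))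
    exact absurd hz (not_lt.2 (h8.trans h9))
  obtain ⟨x', hx'⟩ := comp_lt hB (v := v) (y := x) hb q
  rw [← h1] at hx'
  exact ⟨s, b, v, x', hx', h2, h4, h5, h6.cg hB hcg (hRi g hg),
    fun j hj s' hs' he hk => h7 j hj s' hs' he (hk.cg hB hcg.symm (hRi j (hj.trans hg)))⟩

theorem SS.far2 (hB : BinF p2 top la) (h3 : P3 p3) {g : N.M} (hbd : Bd W G M) (hM : M ≤ B)
    (hR : G + 4 ≤ B) (hz0 : 0 < z) (hz : z < p2 B) (hq : 0 < q) (hg : g < G)
    {s : N.M} (hs : En W g s)
    (hK : KK p2 p3 β g z z s) (hQ : ¬ QQ p2 p3 W β g z) : SS p2 p3 W β g (z + p2 B * q) := by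
  have hcg : Cg p2 B z (z + p2 B * q) := (Cg.of_add _ _ _).symm
  have hRi : ∀ j, j < G → j + 5 ≤ B := fun j hj => by
    have h8 : j + 5 = (j + 1) + 4 := by ring
    rw [h8]
    exact (add_le_add_left (succ_le' hj) 4).trans hR
  obtain ⟨b, x, hb, hx⟩ := comp_ge hB (R := B) (v := z) hq
  refine ⟨s, b, z, x, hx, hz0, ((hs.le hbd hg).trans hM).trans hb, hs,
    hK.cg hB hcg (hRi g hg), ?_⟩
  intro j hj s' hs' he hk
  exact hQ ⟨j, hj, s', he, hk.cg hB hcg.symm (hRi j (hj.trans hg))⟩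

theorem SS.far3 (hB : BinF p2 top la) (h3 : P3 p3) {g : N.M} (hbd : Bd W G M) (hM : M ≤ B)
    (hR : G + 4 ≤ B) (hz : z < p2 B) (hg : g < G)
    (h : SS p2 p3 W β g (z + p2 B * q)) :
    SS p2 p3 W β g z ∨ ((∃ s, En W g s ∧ KK p2 p3 β g z z s) ∧ ¬ QQ p2 p3 W β g z) := by
  obtain ⟨s, b, v, x, h1, h2, h4, h5, h6, h7⟩ := h
  have hcg : Cg p2 B z (z + p2 B * q) := (Cg.of_add _ _ _).symm
  have hRi : ∀ j, j < G → j + 5 ≤ B := fun j hj => by
    have h8 : j + 5 = (j + 1) + 4 := by ring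
    rw [h8]
    exact (add_le_add_left (succ_le' hj) 4).trans hR
  have hs : s ≤ B := (h5.le hbd hg).trans hM
  have h6' := h6.cg hB hcg.symm (hRi g hg)
  have hv := h6.pos_lt hB h3
  rcases decomp hB hz hs hv h4 h1 with ⟨hb, y, hy⟩ | ⟨hb, hy⟩
  · left
    exact ⟨s, b, v, y, hy, h2, h4, h5, h6',
      fun j hj s' hs' he hk => h7 j hj s' hs' he (hk.cg hB hcg (hRi j (hj.trans hg)))⟩
  · right
    rw [← hy] at h6' h7
    refine ⟨⟨s, h5, h6'⟩, ?_⟩
    rintro ⟨j, hj, s', he, hk⟩
    exact h7 j hj s' (((he.le hbd (hj.trans hg)).trans hM).trans hb) he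
      (hk.cg hB hcg (hRi j (hj.trans hg)))

theorem SS.not_both (hB : BinF p2 top la) (h3 : P3 p3) {g : N.M}
    (h : SS p2 p3 W β g z) {s : N.M} (hs : En W g s) (hK : KK p2 p3 β g z z s) : False := by
  obtain ⟨s', b, v, x, h1, h2, h4, h5, h6, h7⟩ := h
  have e := hs.unique h5
  subst e
  have hlt := hK.pos_lt hB h3
  have h8 : p2 s ≤ p2 b := by
    rcases eq_or_lt_of_le h4 with e | e
    · rw [e]
    · exact (hB.p2_lt _ _ e).le
  have h9 : p2 b ≤ z := by
    rw [h1]
    exact (le_mul_of_one_le_right (zero_le' _) (le_add_of_nonneg_left (zero_le' _))).trans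
      (le_add_of_nonneg_left (zero_le' _))
  exact absurd hlt (not_lt.2 (h8.trans h9))

/-- the effect of appending a far number -/
theorem HS.far (hB : BinF p2 top la) (h3 : P3 p3) (hE : Enum W) {H : N.M → N.M → ZMod 2}
    (hH : HS p2 p3 W β H) (hbd : Bd W G M) (hM : M ≤ B) (hR : G + 4 ≤ B) (hz0 : 0 < z)
    (hz : z < p2 B) (hq : 0 < q) :
    (QQ p2 p3 W β G z → H G (z + p2 B * q) = H G z + 1) ∧
      (¬ QQ p2 p3 W β G z → H G (z + p2 B * q) = H G z) := by
  have hQb : ∀ g, g ≤ G → (QQ p2 p3 W β g z ↔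
      ∃ i, i < g ∧ ∃ s, s < M + 1 ∧ (En W i s ∧ KKb p2 p3 β i z z s)) := by
    intro g hg
    constructor
    · rintro ⟨i, hi, s, h1, h2⟩
      exact ⟨i, hi, s, lt1_of_le (h1.le hbd (hi.trans_le hg)), h1, (kkb_iff hB h3 hz0).2 h2⟩
    · rintro ⟨i, hi, s, -, h1, h2⟩
      exact ⟨i, hi, s, h1, (kkb_iff hB h3 hz0).1 h2⟩
  have key : ∀ g, g ≤ G →
      (((∃ i, i < g ∧ ∃ s, s < M + 1 ∧ (En W i s ∧ KKb p2 p3 β i z z s)) →
        H g (z + p2 B * q) = H g z + 1) ∧
      (¬ (∃ i, i < g ∧ ∃ s, s < M + 1 ∧ (En W i s ∧ KKb p2 p3 β i z z s)) →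
        H g (z + p2 B * q) = H g z)) := by
    intro g
    refine ind_S1 (P := fun g => g ≤ G →
      (((∃ i, i < g ∧ ∃ s, s < M + 1 ∧ (En W i s ∧ KKb p2 p3 β i z z s)) →
        H g (z + p2 B * q) = H g z + 1) ∧
      (¬ (∃ i, i < g ∧ ∃ s, s < M + 1 ∧ (En W i s ∧ KKb p2 p3 β i z z s)) →
        H g (z + p2 B * q) = H g z))) ?_ ?_ ?_ g
    · have hq1 : D1 (fun v : Ctx N => ∃ i, i < v 0 ∧ ∃ s, s < M + 1 ∧
          (En W i s ∧ KKb p2 p3 β i z z s)) := by
        (repeat' (first | assumption | exact DG.var _ | refine DG.add ?_ ?_ |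
          exact DG.const _ |
          refine En.D1' hE ?_ ?_ | refine KKb.D1' hB h3 β ?_ ?_ ?_ ?_ |
          refine D1.and ?_ ?_ | refine D1.bex ?_ ?_))
      have hc1 : D1 (fun v : Ctx N => H (v 0) (z + p2 B * q) = H (v 0) z + 1) :=
        CG2.eq (hH.app (DG.var 0) (DG.const _))
          ((hH.app (DG.var 0) (DG.const _)).map (fun x => x + 1))
      have hc0 : D1 (fun v : Ctx N => H (v 0) (z + p2 B * q) = H (v 0) z) :=
        CG2.eq (hH.app (DG.var 0) (DG.const _)) (hH.app (DG.var 0) (DG.const _))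
      exact (D1.imp (D1.le (DG.var 0) (DG.const G))
        (D1.and (D1.imp hq1 hc1) (D1.imp hq1.not hc0))).1
    · intro _
      refine ⟨?_, fun _ => by rw [hH.zero, hH.zero]⟩
      rintro ⟨i, hi, -⟩
      exact absurd hi (not_lt.2 (zero_le' i))
    · intro j ih hj
      have hj' : j < G := (lt1 j).trans_le hj
      have ih' := ih hj'.le
      rw [← hQb j hj'.le] at ih'
      rw [← hQb (j + 1) hj]
      have hsucc : QQ p2 p3 W β (j + 1) z ↔
          QQ p2 p3 W β j z ∨ ∃ s, En W j s ∧ KK p2 p3 β j z z s := by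
        constructor
        · rintro ⟨i, hi, s, h1, h2⟩
          rcases lt_or_eq_of_le (le_of_lt1 hi) with h | h
          · exact Or.inl ⟨i, h, s, h1, h2⟩
          · subst h
            exact Or.inr ⟨s, h1, h2⟩
        · rintro (⟨i, hi, s, h1, h2⟩ | ⟨s, h1, h2⟩)
          · exact ⟨i, hi.trans (lt1 _), s, h1, h2⟩
          · exact ⟨j, lt1 _, s, h1, h2⟩
      rw [hsucc]
      have z2 : ∀ x : ZMod 2, x + 1 + 1 = x := by decide
      by_cases hS : SS p2 p3 W β j z
      · have hS' := hS.far1 (q := q) hB h3 hbd hM hR hz hj'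
        rw [hH.s1 j _ hS', hH.s1 j _ hS]
        have hno : ¬ ∃ s, En W j s ∧ KK p2 p3 β j z z s := by
          rintro ⟨s, h1, h2⟩
          exact hS.not_both hB h3 h1 h2
        constructor
        · rintro (h | h)
          · rw [ih'.1 h]
          · exact absurd h hno
        · intro h
          rw [ih'.2 (fun h' => h (Or.inl h'))]
      · rw [hH.s0 j _ hS]
        by_cases hQ : QQ p2 p3 W β j z
        · have hS' : ¬ SS p2 p3 W β j (z + p2 B * q) := by
            intro h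
            rcases h.far3 hB h3 hbd hM hR hz hj' with h' | ⟨-, h'⟩
            · exact hS h'
            · exact h' hQ
          rw [hH.s0 j _ hS']
          exact ⟨fun _ => ih'.1 hQ, fun h => absurd (Or.inl hQ) h⟩
        · by_cases hk : ∃ s, En W j s ∧ KK p2 p3 β j z z s
          · obtain ⟨s, h1, h2⟩ := hk
            have hS' := SS.far2 hB h3 hbd hM hR hz0 hz hq hj' h1 h2 hQ
            rw [hH.s1 j _ hS', ih'.2 hQ]
            exact ⟨fun _ => rfl, fun h => absurd (Or.inr ⟨s, h1, h2⟩) h⟩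
          · have hS' : ¬ SS p2 p3 W β j (z + p2 B * q) := by
              intro h
              rcases h.far3 hB h3 hbd hM hR hz hj' with h' | ⟨h', -⟩
              · exact hS h'
              · exact hk h'
            rw [hH.s0 j _ hS', ih'.2 hQ]
            refine ⟨?_, fun _ => rfl⟩
            rintro (h | h)
            · exact absurd h hQ
            · exact absurd h hk
  have h := key G le_rfl
  rw [← hQb G le_rfl] at h
  exact h

end far

end Run7.h950
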