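import Mathlib
import Pool.Agent.Run7.h950.Core

/-!
The colouring with two colours, and its behaviour under sums.
-/

namespace Run7.h950

open Pool.Agent.Helper617.RM Pool.Agent.H645R2.R

universe u

set_option linter.unusedSectionVars false
set_option linter.unusedVariables false

variable {N : L2Structure.{u}} [IsModelRCA0 N]
variable {p2 top la p3 hf : N.M → N.M} {W : N.M → N.M → Prop} {H1 H0 : N.M → N.M → ZMod 2}

/-! ### definitions -/

open Classical in
/-- parity -/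
noncomputable def par (hf : N.M → N.M) (l : N.M) : ZMod 2 := if l = hf l + hf l then 0 else 1

open Classical in
/-- the character with `chi (3 w) = chi w + 1` -/
noncomputable def chi (p2 : N.M → N.M) (w : N.M) : ZMod 2 :=
  if Cl p2 1 15 w ∨ Cl p2 7 9 w then 0 else 1

open Classical in
/-- the level functions on odd numbers -/
noncomputable def FF (p2 : N.M → N.M) (H1 H0 : N.M → N.M → ZMod 2) (g w : N.M) : ZMod 2 :=
  if Cl p2 7 9 w then H0 g w else if Cl p2 3 13 w then H0 g (3 * w) else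
    if Cl p2 1 15 w then H1 g (9 * w) else H1 g (27 * w)

open Classical in
/-- the level functions with one intermediate step -/
noncomputable def F2 (p2 hf : N.M → N.M) (H1 H0 : N.M → N.M → ZMod 2) (l w : N.M) : ZMod 2 :=
  if l = hf l + hf l then FF p2 H1 H0 (hf l) w else
    if FF p2 H1 H0 (hf l) w = FF p2 H1 H0 (hf l) (3 * w) then FF p2 H1 H0 (hf l + 1) w else
      FF p2 H1 H0 (hf l) w

/-! ### definability -/

theorem CG2.ite {P : Ctx N → Prop} [∀ v, Decidable (P v)] (hP : D1 P) {f g : Ctx N → ZMod 2}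
    (hf : CG2 f) (hg : CG2 g) : CG2 (fun v => if P v then f v else g v) := fun j =>
  ((hP.and (hf j)).or (hP.not.and (hg j))).congr fun v => by
    by_cases h : P v
    · simp [h]
    · simp [h]

theorem CG2.add {f g : Ctx N → ZMod 2} (hf : CG2 f) (hg : CG2 g) :
    CG2 (fun v => f v + g v) := fun j =>
  (D1.finEx (ι := ZMod 2 × ZMod 2) (P := fun i v => (f v = i.1 ∧ g v = i.2) ∧ i.1 + i.2 = j)
    fun i => ((hf i.1).and (hg i.2)).and (D1.const _)).congr fun v => by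
      constructor
      · rintro ⟨i, ⟨h1, h2⟩, h3⟩
        show f v + g v = j
        rw [h1, h2]; exact h3
      · intro h; exact ⟨(f v, g v), ⟨rfl, rfl⟩, h⟩

theorem par_CG (hH : Half hf) {f : Ctx N → N.M} (h : DG f) : CG2 (fun v => par hf (f v)) := by
  classical
  have hhf := hH.gf
  exact CG2.ite (D1.eq h (DG.add (DG.app hhf h) (DG.app hhf h))) (CG2.const 0) (CG2.const 1)

theorem chi_CG (hB : BinF p2 top la) {f : Ctx N → N.M} (h : DG f) :
    CG2 (fun v => chi p2 (f v)) := by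
  classical
  exact CG2.ite ((Cl.D1' hB 1 15 h).or (Cl.D1' hB 7 9 h)) (CG2.const 0) (CG2.const 1)

theorem FF_CG (hB : BinF p2 top la) (hH1 : HS p2 p3 W True H1) (hH0 : HS p2 p3 W False H0)
    {f g : Ctx N → N.M} (h : DG f) (h' : DG g) : CG2 (fun v => FF p2 H1 H0 (f v) (g v)) := by
  classical
  refine CG2.ite (Cl.D1' hB 7 9 h') (hH0.app h h') (CG2.ite (Cl.D1' hB 3 13 h')
    (hH0.app h (DG.mul (DG.const 3) h')) (CG2.ite (Cl.D1' hB 1 15 h')
    (hH1.app h (DG.mul (DG.const 9) h')) (hH1.app h (DG.mul (DG.const 27) h'))))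

theorem F2_CG (hB : BinF p2 top la) (hH : Half hf) (hH1 : HS p2 p3 W True H1)
    (hH0 : HS p2 p3 W False H0)
    {f g : Ctx N → N.M} (h : DG f) (h' : DG g) : CG2 (fun v => F2 p2 hf H1 H0 (f v) (g v)) := by
  classical
  have hhf := hH.gf
  have hh : DG (fun v => hf (f v)) := DG.app hhf h
  refine CG2.ite (D1.eq h (DG.add hh hh)) (FF_CG hB hH1 hH0 hh h')
    (CG2.ite (CG2.eq (FF_CG hB hH1 hH0 hh h') (FF_CG hB hH1 hH0 hh (DG.mul (DG.const 3) h')))
    (FF_CG hB hH1 hH0 (DG.add hh (DG.const 1)) h') (FF_CG hB hH1 hH0 hh h'))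

/-! ### values -/

theorem par_even (hH : Half hf) (g : N.M) : par hf (g + g) = 0 := by
  unfold par
  rw [if_pos]
  rw [hH.dbl]

theorem par_odd (hH : Half hf) (g : N.M) : par hf (g + g + 1) = 1 := by
  unfold par
  rw [if_neg]
  rw [hH.dbl1]
  exact (lt1 _).ne'

theorem par_succ (hH : Half hf) (l : N.M) : par hf (l + 1) = par hf l + 1 := by
  obtain ⟨g, -, hg⟩ := BinEx.parity l
  rcases hg with rfl | rfl
  · rw [par_odd hH, par_even hH, zero_add]
  · have e : g + g + 1 + 1 = (g + 1) + (g + 1) := by ring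
    rw [e, par_odd hH, par_even hH]
    decide

theorem F2_even (hH : Half hf) (g w : N.M) : F2 p2 hf H1 H0 (g + g) w = FF p2 H1 H0 g w := by
  unfold F2
  rw [hH.dbl, if_pos rfl]

theorem F2_odd1 (hH : Half hf) {g w : N.M} (h : FF p2 H1 H0 g w = FF p2 H1 H0 g (3 * w)) :
    F2 p2 hf H1 H0 (g + g + 1) w = FF p2 H1 H0 (g + 1) w := by
  unfold F2
  rw [hH.dbl1, if_neg (lt1 _).ne', if_pos h]

theorem F2_odd0 (hH : Half hf) {g w : N.M} (h : ¬ FF p2 H1 H0 g w = FF p2 H1 H0 g (3 * w)) :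
    F2 p2 hf H1 H0 (g + g + 1) w = FF p2 H1 H0 g w := by
  unfold F2
  rw [hH.dbl1, if_neg (lt1 _).ne', if_neg h]

theorem FF_A2 {g w : N.M} (h : Cl p2 7 9 w) : FF p2 H1 H0 g w = H0 g w := by
  unfold FF
  rw [if_pos h]

theorem FF_A1 (hB : BinF p2 top la) {g w : N.M} (h : Cl p2 3 13 w) :
    FF p2 H1 H0 g w = H0 g (3 * w) := by
  unfold FF
  rw [if_neg (fun h' => h.excl hB h' (by norm_num) (by norm_num)), if_pos h]

theorem FF_A0 (hB : BinF p2 top la) {g w : N.M} (h : Cl p2 1 15 w) :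
    FF p2 H1 H0 g w = H1 g (9 * w) := by
  unfold FF
  rw [if_neg (fun h' => h.excl hB h' (by norm_num) (by norm_num)),
    if_neg (fun h' => h.excl hB h' (by norm_num) (by norm_num)), if_pos h]

theorem FF_A3 (hB : BinF p2 top la) {g w : N.M} (h : Cl p2 5 11 w) :
    FF p2 H1 H0 g w = H1 g (27 * w) := by
  unfold FF
  rw [if_neg (fun h' => h.excl hB h' (by norm_num) (by norm_num)),
    if_neg (fun h' => h.excl hB h' (by norm_num) (by norm_num)),
    if_neg (fun h' => h.excl hB h' (by norm_num) (by norm_num))]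

theorem step30 (hB : BinF p2 top la) {w : N.M} (h : Cl p2 5 11 w) : Cl p2 1 15 (3 * w) :=
  h.step hB (by norm_num)

theorem step01 (hB : BinF p2 top la) {w : N.M} (h : Cl p2 1 15 w) : Cl p2 3 13 (3 * w) :=
  h.step hB (by norm_num)

theorem step12 (hB : BinF p2 top la) {w : N.M} (h : Cl p2 3 13 w) : Cl p2 7 9 (3 * w) :=
  h.step hB (by norm_num)

theorem step23 (hB : BinF p2 top la) {w : N.M} (h : Cl p2 7 9 w) : Cl p2 5 11 (3 * w) :=
  h.step hB (by norm_num)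

theorem chi_three (hB : BinF p2 top la) {w : N.M} (hw : Od w) :
    chi p2 (3 * w) = chi p2 w + 1 := by
  have a : ∀ w : N.M, Cl p2 1 15 w ∨ Cl p2 7 9 w → chi p2 w = 0 := fun w h => by
    unfold chi; rw [if_pos h]
  have b : ∀ w : N.M, Cl p2 3 13 w ∨ Cl p2 5 11 w → chi p2 w = 1 := fun w h => by
    unfold chi
    rw [if_neg]
    rcases h with h | h <;> rintro (h' | h') <;>
      exact h.excl hB h' (by norm_num) (by norm_num)
  obtain ⟨k, rfl⟩ := hw
  rcases cl_cover hB k with h | h | h | h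
  · rw [a _ (Or.inl h), b _ (Or.inl (step01 hB h)), zero_add]
  · rw [b _ (Or.inl h), a _ (Or.inr (step12 hB h))]
    decide
  · rw [a _ (Or.inr h), b _ (Or.inr (step23 hB h)), zero_add]
  · rw [b _ (Or.inr h), a _ (Or.inl (step30 hB h))]
    decide

theorem chi_cg (hB : BinF p2 top la) {w w' R : N.M} (h : Cg p2 R w w') (hR : 4 ≤ R) :
    chi p2 w = chi p2 w' := by
  unfold chi
  have e : (Cl p2 1 15 w ∨ Cl p2 7 9 w) ↔ (Cl p2 1 15 w' ∨ Cl p2 7 9 w') := by
    constructor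
    · rintro (h' | h')
      · exact Or.inl (h'.cg hB h hR)
      · exact Or.inr (h'.cg hB h hR)
    · rintro (h' | h')
      · exact Or.inl (h'.cg hB h.symm hR)
      · exact Or.inr (h'.cg hB h.symm hR)
  by_cases h1 : Cl p2 1 15 w ∨ Cl p2 7 9 w
  · rw [if_pos h1, if_pos (e.1 h1)]
  · rw [if_neg h1, if_neg (fun h2 => h1 (e.2 h2))]

/-! ### legality: no three equal colours at `w`, `2 w`, `3 w` -/

theorem legal (hB : BinF p2 top la) (h3 : P3 p3) (hH : Half hf) (hH1 : HS p2 p3 W True H1)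
    (hH0 : HS p2 p3 W False H0) {l w : N.M} (hw : Od w)
    (h : F2 p2 hf H1 H0 (l + 1) w ≠ F2 p2 hf H1 H0 l w) :
    F2 p2 hf H1 H0 l (3 * w) = F2 p2 hf H1 H0 l w := by
  obtain ⟨g, -, hg⟩ := BinEx.parity l
  rcases hg with rfl | rfl
  · rw [F2_even hH, F2_even hH]
    by_contra hcon
    rw [F2_even hH, F2_odd0 hH (fun h' => hcon h'.symm)] at h
    exact h rfl
  · have e : g + g + 1 + 1 = (g + 1) + (g + 1) := by ring
    rw [e, F2_even hH] at h
    by_cases hwall : FF p2 H1 H0 g w = FF p2 H1 H0 g (3 * w)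
    · rw [F2_odd1 hH hwall] at h
      exact absurd rfl h
    · rw [F2_odd0 hH hwall] at h ⊢
      have key : FF p2 H1 H0 g (3 * w) = FF p2 H1 H0 g (3 * (3 * w)) ∧
          FF p2 H1 H0 (g + 1) (3 * w) ≠ FF p2 H1 H0 g (3 * w) := by
        obtain ⟨k, rfl⟩ := hw
        rcases cl_cover hB k with hc | hc | hc | hc
        · have c1 := step01 hB hc
          have c2 := step12 hB c1
          have e9 : (9 : N.M) * (k + k + 1) = 3 * (3 * (k + k + 1)) := by ring
          have hT : ¬ TT p2 g (3 * (3 * (k + k + 1))) := by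
            intro hT
            apply hwall
            rw [FF_A0 hB hc, FF_A1 hB c1, e9]
            exact HS.wp0 hB h3 hH1 hH0 hT
          rw [FF_A0 hB hc, FF_A0 hB hc, e9] at h
          refine ⟨by rw [FF_A1 hB c1, FF_A2 c2], ?_⟩
          rw [FF_A1 hB c1, FF_A1 hB c1]
          exact (hH0.iff _ _).2 (((hH1.iff _ _).1 h).re0 h3 hT)
        · exact absurd (by rw [FF_A1 hB hc, FF_A2 (step12 hB hc)]) hwall
        · have c3 := step23 hB hc
          have c0 := step30 hB c3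
          have e1 : (27 : N.M) * (3 * (k + k + 1)) = 81 * (k + k + 1) := by ring
          have e2 : (9 : N.M) * (3 * (3 * (k + k + 1))) = 81 * (k + k + 1) := by ring
          rw [FF_A2 hc, FF_A2 hc] at h
          refine ⟨by rw [FF_A3 hB c3, FF_A0 hB c0, e1, e2], ?_⟩
          rw [FF_A3 hB c3, FF_A3 hB c3, e1]
          exact (hH1.iff _ _).2 (((hH0.iff _ _).1 h).re2 hB h3 hc)
        · refine absurd ?_ hwall
          rw [FF_A3 hB hc, FF_A0 hB (step30 hB hc)]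
          congr 1
          ring
      rw [F2_odd1 hH key.1]
      have z : ∀ a b c : ZMod 2, a ≠ b → c ≠ b → c = a := by decide
      exact z _ _ _ hwall key.2

/-! ### continuity -/

theorem HS.cl' (hB : BinF p2 top la) (h3 : P3 p3) {β : Prop} {H : N.M → N.M → ZMod 2}
    (hH : HS p2 p3 W β H) {g R M z z' : N.M} (hbd : Bd W g M) (hM : M ≤ R) (hR : g + 4 ≤ R)
    (hc : Cg p2 R z z') (hz : p2 R ≤ z) (hz' : p2 R ≤ z') : H g z = H g z' := by
  obtain ⟨r, q, q', hr, h1, h2⟩ := hc.rem hB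
  have pos : ∀ {z q : N.M}, p2 R ≤ z → z = r + p2 R * q → 0 < q := by
    intro z q hz h
    apply Pool.Agent.Helper617.RM.pos_of_ne_zero
    rintro rfl
    rw [mul_zero, add_zero] at h
    rw [h] at hz
    exact absurd hr (not_lt.2 hz)
  rw [h1, h2]
  exact HS.cl hB h3 hH hbd hM hR hr (pos hz h1) (pos hz' h2)

theorem FF_cl (hB : BinF p2 top la) (h3 : P3 p3) (hH1 : HS p2 p3 W True H1)
    (hH0 : HS p2 p3 W False H0) {g R M w w' : N.M} (hw : Od w) (hbd : Bd W g M) (hM : M ≤ R)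
    (hR : g + 4 ≤ R) (hc : Cg p2 R w w') (hz : p2 R ≤ w) (hz' : p2 R ≤ w') :
    FF p2 H1 H0 g w = FF p2 H1 H0 g w' := by
  have h4 : 4 ≤ R := (le_add_of_nonneg_left (zero_le' _)).trans hR
  have m : ∀ {c w : N.M}, 1 ≤ c → p2 R ≤ w → p2 R ≤ c * w := fun hc h =>
    h.trans (le_mul_of_one_le_left (zero_le' _) hc)
  have c3 : (1 : N.M) ≤ 3 := by norm_num
  have c9 : (1 : N.M) ≤ 9 := by norm_num
  have c27 : (1 : N.M) ≤ 27 := by norm_num
  obtain ⟨k, rfl⟩ := hw
  rcases cl_cover hB k with h | h | h | h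
  · rw [FF_A0 hB h, FF_A0 hB (h.cg hB hc h4)]
    exact HS.cl' hB h3 hH1 hbd hM hR (hc.mul 9) (m c9 hz) (m c9 hz')
  · rw [FF_A1 hB h, FF_A1 hB (h.cg hB hc h4)]
    exact HS.cl' hB h3 hH0 hbd hM hR (hc.mul 3) (m c3 hz) (m c3 hz')
  · rw [FF_A2 h, FF_A2 (h.cg hB hc h4)]
    exact HS.cl' hB h3 hH0 hbd hM hR hc hz hz'
  · rw [FF_A3 hB h, FF_A3 hB (h.cg hB hc h4)]
    exact HS.cl' hB h3 hH1 hbd hM hR (hc.mul 27) (m c27 hz) (m c27 hz')

theorem bd_mono {P P' M : N.M} (h : Bd W P M) (hP : P' ≤ P) : Bd W P' M :=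
  fun z hz s hs => h z (hz.trans_le hP) s hs

theorem Od.three {w : N.M} (hw : Od w) : Od (3 * w) := by
  obtain ⟨k, rfl⟩ := hw
  exact ⟨3 * k + 1, by ring⟩

theorem F2_cl (hB : BinF p2 top la) (h3 : P3 p3) (hH : Half hf) (hH1 : HS p2 p3 W True H1)
    (hH0 : HS p2 p3 W False H0) {l R M w w' : N.M} (hw : Od w) (hbd : Bd W (hf l + 1) M)
    (hM : M ≤ R) (hR : hf l + 1 + 4 ≤ R) (hc : Cg p2 R w w') (hz : p2 R ≤ w)
    (hz' : p2 R ≤ w') : F2 p2 hf H1 H0 l w = F2 p2 hf H1 H0 l w' := by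
  obtain ⟨g, -, hg⟩ := BinEx.parity l
  have hg' : hf l = g := by
    rcases hg with rfl | rfl
    · exact hH.dbl g
    · exact hH.dbl1 g
  rw [hg'] at hbd hR
  have hR' : g + 4 ≤ R := (add_le_add_left (lt1 g).le 4).trans hR
  have hbd' : Bd W g M := bd_mono hbd (lt1 g).le
  have m : ∀ {w : N.M}, p2 R ≤ w → p2 R ≤ 3 * w := fun h =>
    h.trans (le_mul_of_one_le_left (zero_le' _) (by norm_num))
  have e1 := FF_cl hB h3 hH1 hH0 hw hbd' hM hR' hc hz hz'
  have e2 := FF_cl hB h3 hH1 hH0 hw hbd hM hR hc hz hz'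
  have e3 := FF_cl hB h3 hH1 hH0 hw.three hbd' hM hR' (hc.mul 3) (m hz) (m hz')
  rcases hg with rfl | rfl
  · rw [F2_even hH, F2_even hH, e1]
  · by_cases h : FF p2 H1 H0 g w = FF p2 H1 H0 g (3 * w)
    · rw [F2_odd1 hH h, F2_odd1 hH (by rw [← e1, ← e3]; exact h), e2]
    · rw [F2_odd0 hH h, F2_odd0 hH (by rw [← e1, ← e3]; exact h), e1]

/-! ### appending a far number -/

theorem QQ_of {β : Prop} {g i s m z : N.M} (hi : i < g) (hs : En W i s) (hm : 0 < m)
    (hT : TT p2 i (p3 m * z)) (hl : p3 m * z < p2 s) : QQ p2 p3 W β g z :=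
  ⟨i, hi, s, hs, m, Or.inl hm, hT, hl⟩

theorem FF_far (hB : BinF p2 top la) (h3 : P3 p3) (hE : Enum W) (hH1 : HS p2 p3 W True H1)
    (hH0 : HS p2 p3 W False H0) {g B M u q i s m : N.M} (hu : Od u) (hbd : Bd W g M)
    (hM : M ≤ B) (hR : g + 4 ≤ B) (hub : 27 * u < p2 B) (hq : 0 < q)
    (hi : i < g) (hs : En W i s) (hm : 4 ≤ m) (hT : TT p2 i (p3 m * u))
    (hl : p3 m * u < p2 s) :
    FF p2 H1 H0 g (u + p2 B * q) = FF p2 H1 H0 g u + 1 := by
  have h4 : 4 ≤ B := (le_add_of_nonneg_left (zero_le' _)).trans hR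
  have hc : Cg p2 B u (u + p2 B * q) := (Cg.of_add _ _ _).symm
  have hu0 : 0 < u := hu.pos
  have lt : ∀ c : N.M, c ≤ 27 → c * u < p2 B := fun c hc =>
    (mul_le_mul_of_nonneg_right hc (zero_le' _)).trans_lt hub
  obtain ⟨n, rfl⟩ : ∃ n, m = n + 1 + 1 + 1 + 1 := by
    obtain ⟨n, hn⟩ := exists_sub hm
    exact ⟨n, by rw [hn]; ring⟩
  have pos1 : ∀ a : N.M, 0 < a + 1 := fun a => (zero_le' a).trans_lt (lt1 a)
  have e1 : p3 (n + 1 + 1 + 1 + 1) * u = p3 (n + 1 + 1 + 1) * (3 * u) := by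
    rw [h3.succ']; ring
  have e2 : p3 (n + 1 + 1 + 1 + 1) * u = p3 (n + 1 + 1) * (9 * u) := by
    rw [h3.succ', h3.succ']; ring
  have e3 : p3 (n + 1 + 1 + 1 + 1) * u = p3 (n + 1) * (27 * u) := by
    rw [h3.succ', h3.succ', h3.succ']; ring
  obtain ⟨k, rfl⟩ := hu
  rcases cl_cover hB k with h | h | h | h
  · rw [FF_A0 hB h, FF_A0 hB (h.cg hB hc h4)]
    have e : 9 * ((k + k + 1) + p2 B * q) = 9 * (k + k + 1) + p2 B * (9 * q) := by ring
    rw [e]
    rw [e2] at hT hl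
    exact (HS.far hB h3 hE hH1 hbd hM hR (mul_pos (by norm_num) hu0) (lt 9 (by norm_num))
      (mul_pos (by norm_num) hq)).1 (QQ_of hi hs (pos1 _) hT hl)
  · rw [FF_A1 hB h, FF_A1 hB (h.cg hB hc h4)]
    have e : 3 * ((k + k + 1) + p2 B * q) = 3 * (k + k + 1) + p2 B * (3 * q) := by ring
    rw [e]
    rw [e1] at hT hl
    exact (HS.far hB h3 hE hH0 hbd hM hR (mul_pos (by norm_num) hu0) (lt 3 (by norm_num))
      (mul_pos (by norm_num) hq)).1 (QQ_of hi hs (pos1 _) hT hl)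
  · rw [FF_A2 h, FF_A2 (h.cg hB hc h4)]
    have hlt1 := lt 1 (by norm_num)
    rw [one_mul] at hlt1
    exact (HS.far hB h3 hE hH0 hbd hM hR hu0 hlt1 hq).1 (QQ_of hi hs (pos1 _) hT hl)
  · rw [FF_A3 hB h, FF_A3 hB (h.cg hB hc h4)]
    have e : 27 * ((k + k + 1) + p2 B * q) = 27 * (k + k + 1) + p2 B * (27 * q) := by ring
    rw [e]
    rw [e3] at hT hl
    exact (HS.far hB h3 hE hH1 hbd hM hR (mul_pos (by norm_num) hu0) hub
      (mul_pos (by norm_num) hq)).1 (QQ_of hi hs (pos1 _) hT hl)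

theorem F2_far (hB : BinF p2 top la) (h3 : P3 p3) (hE : Enum W) (hH : Half hf)
    (hH1 : HS p2 p3 W True H1)
    (hH0 : HS p2 p3 W False H0) {l B M u q i s m : N.M} (hu : Od u) (hbd : Bd W (hf l + 1) M)
    (hM : M ≤ B) (hR : hf l + 1 + 4 ≤ B) (hub : 81 * u < p2 B) (hq : 0 < q)
    (hi : i < hf l) (hs : En W i s) (hm : 8 ≤ m) (hT : TT p2 i (p3 m * u))
    (hl : p3 m * u < p2 s) :
    F2 p2 hf H1 H0 l (u + p2 B * q) = F2 p2 hf H1 H0 l u + 1 := by
  obtain ⟨g, -, hg⟩ := BinEx.parity l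
  have hg' : hf l = g := by
    rcases hg with rfl | rfl
    · exact hH.dbl g
    · exact hH.dbl1 g
  rw [hg'] at hbd hR hi
  have hR' : g + 4 ≤ B := (add_le_add_left (lt1 g).le 4).trans hR
  have hbd' : Bd W g M := bd_mono hbd (lt1 g).le
  have hub27 : 27 * u < p2 B :=
    (mul_le_mul_of_nonneg_right (by norm_num) (zero_le' _)).trans_lt hub
  have hub81 : 27 * (3 * u) < p2 B := by
    have e : 27 * (3 * u) = 81 * u := by ring
    rw [e]; exact hub
  obtain ⟨n, rfl⟩ : ∃ n, m = n + 1 := by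
    obtain ⟨n, hn⟩ := exists_sub hm
    exact ⟨n + 7, by rw [hn]; ring⟩
  have hn : 4 ≤ n := by
    have h1 : (4 : N.M) + 1 ≤ n + 1 := le_trans (by norm_num) hm
    exact le_of_add_le_add_right h1
  have hm4 : (4 : N.M) ≤ n + 1 := hn.trans (lt1 n).le
  have e1 : p3 (n + 1) * u = p3 n * (3 * u) := by
    rw [h3.succ']; ring
  have f1 := FF_far hB h3 hE hH1 hH0 hu hbd' hM hR' hub27 hq hi hs hm4 hT hl
  have f2 := FF_far hB h3 hE hH1 hH0 hu hbd hM hR hub27 hq (hi.trans (lt1 g)) hs hm4 hT hl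
  have hT' := hT
  have hl' := hl
  rw [e1] at hT' hl'
  have f3 := FF_far hB h3 hE hH1 hH0 hu.three hbd' hM hR' hub81 (mul_pos (by norm_num) hq :
    0 < 3 * q) hi hs hn hT' hl'
  have e3 : 3 * u + p2 B * (3 * q) = 3 * (u + p2 B * q) := by ring
  rw [e3] at f3
  rcases hg with rfl | rfl
  · rw [F2_even hH, F2_even hH, f1]
  · by_cases h : FF p2 H1 H0 g u = FF p2 H1 H0 g (3 * u)
    · rw [F2_odd1 hH h, F2_odd1 hH (by rw [f1, f3, h]), f2]
    · rw [F2_odd0 hH h, F2_odd0 hH (by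
        rw [f1, f3]
        intro h'
        exact h (add_right_cancel h')), f1]

end Run7.h950
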