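import Mathlib
import Pool.Agent.Run7.h950.Colour

/-!
Over `RCA₀`, Hindman's theorem for two colours and sums of at most three terms implies
arithmetical comprehension.
-/

namespace Run7.h950

open Pool.Agent.Helper617.RM Pool.Agent.H645R2.R

universe u

set_option linter.unusedSectionVars false
set_option linter.unusedVariables false

variable {N : L2Structure.{u}} [IsModelRCA0 N]
variable {p2 top la p3 hf op : N.M → N.M} {W : N.M → N.M → Prop}
  {H1 H0 : N.M → N.M → ZMod 2} {C : N.M → ZMod 2}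

/-- an unbounded set with all sums of one, two or three terms of one colour -/
structure Hom3 (C : N.M → ZMod 2) (X : Set N.M) : Prop where
  mem : X ∈ N.Sets
  unb : ∀ b, ∃ x ∈ X, b < x
  two : ∀ x ∈ X, ∀ y ∈ X, x < y → C (x + y) = C x
  three : ∀ x ∈ X, ∀ y ∈ X, ∀ z ∈ X, x < y → y < z → C (x + y + z) = C x

/-- the odd part -/
structure OP (p2 la op : N.M → N.M) : Prop where
  gf : GF op
  eq : ∀ n, 0 < n → n = p2 (la n) * op n
  od : ∀ n, 0 < n → Od (op n)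

theorem exists_op (hB : BinF p2 top la) : ∃ op, OP p2 la op := by
  have hp2 := hB.hp2
  have hla := hB.hla
  have h : ∀ n : N.M, ∃ m, (0 < n ∧ n = p2 (la n) * m) ∨ (n = 0 ∧ m = 0) := by
    intro n
    rcases (zero_le' n).lt_or_eq with h | h
    · obtain ⟨q, hq⟩ := hB.la_eq n h
      exact ⟨q + q + 1, Or.inl ⟨h, hq⟩⟩
    · exact ⟨0, Or.inr ⟨h.symm, rfl⟩⟩
  choose op hop using h
  have hcan : ∀ {a b c : N.M}, p2 a * b = p2 a * c → b = c := fun {a b c} h =>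
    mul_left_cancel₀ (hB.p2_pos a).ne' h
  have huniq : ∀ n m, ((0 < n ∧ n = p2 (la n) * m) ∨ (n = 0 ∧ m = 0)) → m = op n := by
    intro n m hm
    rcases hm with ⟨h1, h2⟩ | ⟨h1, h2⟩ <;> rcases hop n with ⟨h3, h4⟩ | ⟨h3, h4⟩
    · exact hcan (h2.symm.trans h4)
    · exact absurd h3 h1.ne'
    · exact absurd h1 h3.ne'
    · rw [h2, h4]
  refine ⟨op, ?_, ?_, ?_⟩
  · refine GF.graph (D1.congr (R := fun v => (0 < v 0 ∧ v 0 = p2 (la (v 0)) * v 1) ∨
      (v 0 = 0 ∧ v 1 = 0)) ?_ ?_)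
    · (repeat' (first | assumption | exact DG.var _ | refine DG.add ?_ ?_ | refine DG.mul ?_ ?_ |
        refine DG.app (by assumption) ?_ | exact DG.const _ |
        refine D1.and ?_ ?_ | refine D1.or ?_ ?_ | refine D1.not ?_ | refine D1.lt ?_ ?_ |
        refine D1.eq ?_ ?_))
    · intro v
      exact ⟨fun h' => huniq _ _ h', fun h' => by rw [h']; exact hop _⟩
  · intro n hn
    rcases hop n with ⟨h3, h4⟩ | ⟨h3, h4⟩
    · exact h4
    · exact absurd h3 hn.ne'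
  · intro n hn
    obtain ⟨q, hq⟩ := hB.la_eq n hn
    have h1 := huniq n (q + q + 1) (Or.inl ⟨hn, hq⟩)
    exact ⟨q, h1.symm⟩

theorem OP.unique (hB : BinF p2 top la) (hO : OP p2 la op) {n l w : N.M} (hw : Od w)
    (h : n = p2 l * w) : la n = l ∧ op n = w := by
  obtain ⟨k, rfl⟩ := hw
  have h1 := hB.la_unique n l k h
  have hpos : 0 < n := by
    rw [h]
    exact mul_pos (hB.p2_pos l) ((zero_le' _).trans_lt (lt1 _))
  refine ⟨h1, ?_⟩
  have h2 := hO.eq n hpos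
  rw [h1] at h2
  exact mul_left_cancel₀ (hB.p2_pos l).ne' (h2.symm.trans h)

/-- the colouring -/
structure IsC3 (p2 la hf op : N.M → N.M) (H1 H0 : N.M → N.M → ZMod 2)
    (C : N.M → ZMod 2) : Prop where
  hC : CG21 C
  eq : ∀ n, C n = par hf (la n) + chi p2 (op n) + F2 p2 hf H1 H0 (la n) (op n)

theorem exists_C3 (hB : BinF p2 top la) (hH : Half hf) (hO : OP p2 la op)
    (hH1 : HS p2 p3 W True H1) (hH0 : HS p2 p3 W False H0) :
    ∃ C, IsC3 p2 la hf op H1 H0 C := by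
  have hla := hB.hla
  have hop := hO.gf
  refine ⟨fun n => par hf (la n) + chi p2 (op n) + F2 p2 hf H1 H0 (la n) (op n), ?_,
    fun n => rfl⟩
  have h : CG2 (fun v : Ctx N => par hf (la (v 0)) + chi p2 (op (v 0)) +
      F2 p2 hf H1 H0 (la (v 0)) (op (v 0))) :=
    ((par_CG hH (DG.app hla (DG.var 0))).add (chi_CG hB (DG.app hop (DG.var 0)))).add
      (F2_CG hB hH hH1 hH0 (DG.app hla (DG.var 0)) (DG.app hop (DG.var 0)))
  intro j
  exact d0_of_D1_pred (P := fun x => par hf (la x) + chi p2 (op x) +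
      F2 p2 hf H1 H0 (la x) (op x) = j) (h j).1 (h j).2

/-- homogeneous sets contain elements with arbitrarily high lowest position -/
theorem far3 (hB : BinF p2 top la) (h3 : P3 p3) (hE : Enum W) (hH : Half hf)
    (hO : OP p2 la op) (hH1 : HS p2 p3 W True H1) (hH0 : HS p2 p3 W False H0)
    (hC : IsC3 p2 la hf op H1 H0 C) (X : Set N.M) (hX : Hom3 C X) (b : N.M) :
    ∃ x ∈ X, 0 < x ∧ b < la x := by
  by_contra hcon
  have hcon' : ∀ x ∈ X, 0 < x → la x ≤ b := fun x hx h0 => by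
    by_contra h
    exact hcon ⟨x, hx, h0, not_le.1 h⟩
  obtain ⟨M, _, hM⟩ := bd N W hE (b + 3) 0
  obtain ⟨R0, hR0⟩ : ∃ R0, R0 = M + b + 8 := ⟨_, rfl⟩
  obtain ⟨R, hR⟩ : ∃ R, R = b + 1 + R0 := ⟨_, rfl⟩
  have hp2 := hB.hp2
  have hXm := hX.mem
  have hbnd : ∀ L : N.M, ∃ B, ∀ r, r < p2 R →
      (∃ x, x ∈ X ∧ L < x ∧ ∃ q, q < x + 1 ∧ x = r + p2 R * q) →
      ∃ x, x < B ∧ (x ∈ X ∧ L < x ∧ ∃ q, q < x + 1 ∧ x = r + p2 R * q) := by
    intro L
    have hQ : D0 (fun v : Ctx N =>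
        v 1 ∈ X ∧ L < v 1 ∧ ∃ q, q < v 1 + 1 ∧ v 1 = v 0 + p2 R * q) := by
      have : D1 (fun v : Ctx N =>
          v 1 ∈ X ∧ L < v 1 ∧ ∃ q, q < v 1 + 1 ∧ v 1 = v 0 + p2 R * q) := by
        refine D1.and (D1.mem (DG.var 1) hXm) (D1.and (D1.lt (DG.const _) (DG.var 1)) ?_)
        refine D1.bex (P := fun v q => v 1 = v 0 + p2 R * q)
          (DG.add (DG.var 1) (DG.const _)) ?_
        exact D1.eq (DG.var 2) (DG.add (DG.var 1) (DG.mul (DG.const _) (DG.var 0)))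
      exact d0_of_D1
        (R := fun r x => x ∈ X ∧ L < x ∧ ∃ q, q < x + 1 ∧ x = r + p2 R * q)
        this.1 this.2
    exact strong_bounding
      (Q := fun r x => x ∈ X ∧ L < x ∧ ∃ q, q < x + 1 ∧ x = r + p2 R * q)
      hQ (p2 R)
  obtain ⟨B1, hB1⟩ := hbnd (p2 R)
  obtain ⟨B2, hB2⟩ := hbnd (max B1 (p2 R))
  obtain ⟨t, htX, ht⟩ := hX.unb (max B2 (max B1 (p2 R)))
  have htB2 : B2 < t := (le_max_left _ _).trans_lt ht
  have ht1 : max B1 (p2 R) < t := (le_max_right _ _).trans_lt ht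
  have htp : p2 R < t := (le_max_right _ _).trans_lt ht1
  obtain ⟨r, q3, hr, htr⟩ := hB.modp t R
  have hq3 : q3 < t + 1 := by
    apply lt1_of_le
    have h1 : 1 ≤ p2 R := one_le_of_pos (hB.p2_pos R)
    calc q3 = 1 * q3 := (one_mul _).symm
      _ ≤ p2 R * q3 := by gcongr
      _ ≤ r + p2 R * q3 := le_add_self
      _ = t := htr.symm
  obtain ⟨x, hxB, hxX, hxp, q1, _, hx1⟩ := hB1 r hr ⟨t, htX, htp, q3, hq3, htr⟩
  obtain ⟨y, hyB, hyX, hyp, q2, _, hy1⟩ := hB2 r hr ⟨t, htX, ht1, q3, hq3, htr⟩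
  have hxy : x < y := hxB.trans ((le_max_left _ _).trans_lt hyp)
  have hyt : y < t := hyB.trans htB2
  have hqq : ∀ {q q' x y : N.M}, x = r + p2 R * q → y = r + p2 R * q' → x < y →
      ∃ k, 0 < k ∧ y = x + p2 R * k := by
    intro q q' x y h1 h2 h
    have hlt : q < q' := by
      by_contra hc
      have : y ≤ x := by
        rw [h1, h2]
        have := not_lt.1 hc
        gcongr
      exact absurd h (not_lt.2 this)
    obtain ⟨d, hd⟩ := exists_sub (succ_le' hlt)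
    refine ⟨1 + d, lt_of_lt_of_le zero_lt_one (le_add_of_nonneg_right (zero_le' _)), ?_⟩
    rw [h2, h1, hd]
    ring
  obtain ⟨k1, hk1, hyk⟩ := hqq hx1 hy1 hxy
  obtain ⟨k2, hk2, htk⟩ := hqq hx1 htr (hxy.trans hyt)
  have hx0 : 0 < x := (zero_le' _).trans_lt hxp
  obtain ⟨l, hl⟩ : ∃ l, l = la x := ⟨_, rfl⟩
  obtain ⟨w, hw⟩ : ∃ w, w = op x := ⟨_, rfl⟩
  have hxw : x = p2 l * w := by rw [hl, hw]; exact hO.eq x hx0
  have hwod : Od w := by rw [hw]; exact hO.od x hx0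
  have hlb : l ≤ b := by rw [hl]; exact hcon' x hxX hx0
  obtain ⟨e, he⟩ := exists_sub hlb
  -- the decomposition of `R`
  have hR1 : R = (l + 1) + (R0 + e) := by rw [hR, he]; ring
  have hR2 : R = l + (1 + R0 + e) := by rw [hR, he]; ring
  have hsplit : R0 + e = (M + b + 7 + e) + 1 := by rw [hR0]; ring
  have hsplit' : 1 + R0 + e = (R0 + e) + 1 := by ring
  have hw0 : p2 R0 ≤ w := by
    by_contra hc
    have h1 : x < p2 R := by
      rw [hxw, hR2]
      calc p2 l * w < p2 l * p2 R0 := mul_lt_mul_of_pos_left (not_le.1 hc) (hB.p2_pos l)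
        _ = p2 (l + R0) := (hB.p2_add _ _).symm
        _ ≤ p2 (l + (1 + R0 + e)) := by
          have e2 : l + (1 + R0 + e) = (l + R0) + (1 + e) := by ring
          rw [e2, hB.p2_add (l + R0)]
          exact le_mul_of_one_le_right (zero_le' _) (one_le_of_pos (hB.p2_pos _))
    exact lt_asymm h1 hxp
  -- sums of two and three terms
  obtain ⟨w1, hw1⟩ : ∃ w1, w1 = w + p2 (R0 + e) * k1 := ⟨_, rfl⟩
  obtain ⟨w2, hw2⟩ : ∃ w2, w2 = 3 * w + p2 (1 + R0 + e) * (k1 + k2) := ⟨_, rfl⟩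
  have hs2 : x + y = p2 (l + 1) * w1 := by
    rw [hyk, hw1, hR1, hB.p2_add (l + 1), hB.p2_succ l]
    conv_lhs => rw [hxw]
    ring
  have hs3 : x + y + t = p2 l * w2 := by
    rw [hyk, htk, hw2, hR2, hB.p2_add l]
    conv_lhs => rw [hxw]
    ring
  have hw1od : Od w1 := by
    rw [hw1, hsplit]
    exact Od.add hB hwod _
  have hw2od : Od w2 := by
    rw [hw2, hsplit']
    exact Od.add hB hwod.three _
  obtain ⟨f1, f2⟩ := hO.unique hB hw1od hs2
  obtain ⟨f3, f4⟩ := hO.unique hB hw2od hs3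
  have c1 : Cg p2 R0 w w1 := by
    have : w1 = w + p2 R0 * (p2 e * k1) := by rw [hw1, hB.p2_add]; ring
    rw [this]
    exact (Cg.of_add _ _ _).symm
  have c2 : Cg p2 R0 (3 * w) w2 := by
    have : w2 = 3 * w + p2 R0 * (p2 1 * p2 e * (k1 + k2)) := by
      rw [hw2, hB.p2_add, hB.p2_add]; ring
    rw [this]
    exact (Cg.of_add _ _ _).symm
  have hle1 : p2 R0 ≤ w1 := by
    rw [hw1]
    exact hw0.trans (le_add_of_nonneg_right (zero_le' _))
  have hle3 : p2 R0 ≤ 3 * w := hw0.trans (le_mul_of_one_le_left (zero_le' _) (by norm_num))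
  have hle2 : p2 R0 ≤ w2 := by
    rw [hw2]
    exact hle3.trans (le_add_of_nonneg_right (zero_le' _))
  have hMR : M ≤ R0 := by
    have : R0 = M + (b + 8) := by rw [hR0]; ring
    rw [this]
    exact le_add_of_nonneg_right (zero_le' _)
  have hlev : ∀ j, j ≤ b + 1 → Bd W (hf j + 1) M ∧ hf j + 1 + 4 ≤ R0 := by
    intro j hj
    have h1 : hf j ≤ b + 1 := (hH.le j).trans hj
    constructor
    · refine bd_mono hM ?_
      have e2 : b + 3 = (b + 1 + 1) + 1 := by ring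
      rw [e2]
      exact (add_le_add_left h1 1).trans (le_add_of_nonneg_right (zero_le' _))
    · have e2 : R0 = (b + 1 + 1 + 4) + (M + 2) := by rw [hR0]; ring
      rw [e2]
      exact (add_le_add_left (add_le_add_left h1 1) 4).trans
        (le_add_of_nonneg_right (zero_le' _))
  have h4 : 4 ≤ R0 := by
    have e2 : R0 = 4 + (M + b + 4) := by rw [hR0]; ring
    rw [e2]
    exact le_add_of_nonneg_right (zero_le' _)
  obtain ⟨b1, b2⟩ := hlev (l + 1) (add_le_add_left hlb 1)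
  obtain ⟨b3, b4⟩ := hlev l (hlb.trans (lt1 b).le)
  have g1 := F2_cl hB h3 hH hH1 hH0 hwod b1 hMR b2 c1 hw0 hle1
  have g2 := F2_cl hB h3 hH hH1 hH0 hwod.three b3 hMR b4 c2 hle3 hle2
  have g3 := chi_cg hB c1 h4
  have g4 := chi_cg hB c2 h4
  have g5 := chi_three hB hwod
  have E1 := hX.two x hxX y hyX hxy
  have E2 := hX.three x hxX y hyX t htX hxy hyt
  rw [hC.eq, hC.eq x, f1, f2, ← hl, ← hw, ← g1, ← g3, par_succ hH] at E1
  rw [hC.eq, hC.eq x, f3, f4, ← hl, ← hw, ← g2, ← g4, g5] at E2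
  have z1 : ∀ p c a b : ZMod 2, p + 1 + c + a = p + c + b → a ≠ b := by decide
  have hne := z1 _ _ _ _ E1
  have hleg := legal hB h3 hH hH1 hH0 hwod hne
  rw [hleg] at E2
  have z2 : ∀ p c a : ZMod 2, p + (c + 1) + a ≠ p + c + a := by decide
  exact z2 _ _ _ E2

/-- no element of a homogeneous set has a late event -/
theorem settled3 (hB : BinF p2 top la) (h3 : P3 p3) (hE : Enum W) (hH : Half hf)
    (hO : OP p2 la op) (hH1 : HS p2 p3 W True H1) (hH0 : HS p2 p3 W False H0)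
    (hC : IsC3 p2 la hf op H1 H0 C) (X : Set N.M) (hX : Hom3 C X) {h i m s : N.M}
    (hhX : h ∈ X) (hpos : 0 < h) (hi : i < hf (la h)) (hm : 8 ≤ m)
    (hT : TT p2 i (p3 m * op h)) (hs : En W i s) : ¬ p3 m * op h < p2 s := by
  intro hlt
  obtain ⟨l, hl⟩ : ∃ l, l = la h := ⟨_, rfl⟩
  obtain ⟨u, hu⟩ : ∃ u, u = op h := ⟨_, rfl⟩
  rw [← hl] at hi
  rw [← hu] at hT hlt
  have hhu : h = p2 l * u := by rw [hl, hu]; exact hO.eq h hpos
  have huod : Od u := by rw [hu]; exact hO.od h hpos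
  obtain ⟨M, -, hM⟩ := bd N W hE (hf l + 1) 0
  obtain ⟨B, hBe⟩ : ∃ B, B = M + (hf l + 5) + 81 * u + 1 := ⟨_, rfl⟩
  obtain ⟨y, hyX, hypos, hy⟩ := far3 hB h3 hE hH hO hH1 hH0 hC X hX (l + B + h)
  obtain ⟨e, he⟩ : ∃ e, la y = l + B + e := by
    obtain ⟨e, he⟩ := exists_sub hy.le
    exact ⟨h + e, by rw [he]; ring⟩
  have hylt : h < y := by
    have h1 : h < la y := lt_of_le_of_lt (le_add_of_nonneg_left (zero_le' _)) hy
    have h2 : p2 (la y) ≤ y := by
      conv_rhs => rw [hO.eq y hypos]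
      exact le_mul_of_one_le_right (zero_le' _) (one_le_of_pos (hO.od y hypos).pos)
    exact (h1.trans (hB.lt_p2 _)).trans_le h2
  obtain ⟨q, hq⟩ : ∃ q, q = p2 e * op y := ⟨_, rfl⟩
  have hq0 : 0 < q := by
    rw [hq]
    exact mul_pos (hB.p2_pos _) (hO.od y hypos).pos
  have hsum : h + y = p2 l * (u + p2 B * q) := by
    have h1 : y = p2 l * (p2 B * q) := by
      conv_lhs => rw [hO.eq y hypos]
      rw [he, hB.p2_add, hB.p2_add, hq]
      ring
    conv_lhs => rw [h1, hhu]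
    ring
  have hod : Od (u + p2 B * q) := by
    rw [hBe]
    exact Od.add hB huod _
  obtain ⟨f1, f2⟩ := hO.unique hB hod hsum
  have hMB : M ≤ B := by
    have : B = M + ((hf l + 5) + 81 * u + 1) := by rw [hBe]; ring
    rw [this]
    exact le_add_of_nonneg_right (zero_le' _)
  have hRB : hf l + 1 + 4 ≤ B := by
    have : B = (hf l + 1 + 4) + (M + 81 * u + 1) := by rw [hBe]; ring
    rw [this]
    exact le_add_of_nonneg_right (zero_le' _)
  have hub : 81 * u < p2 B := by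
    have h1 : 81 * u ≤ B := by
      have : B = 81 * u + (M + (hf l + 5) + 1) := by rw [hBe]; ring
      rw [this]
      exact le_add_of_nonneg_right (zero_le' _)
    exact h1.trans_lt (hB.lt_p2 _)
  have g1 := F2_far hB h3 hE hH hH1 hH0 (l := l) huod hM hMB hRB hub hq0 hi hs hm hT hlt
  have h4 : 4 ≤ B := (le_add_of_nonneg_left (zero_le' _)).trans hRB
  have g2 : chi p2 u = chi p2 (u + p2 B * q) := chi_cg hB (Cg.of_add _ _ _).symm h4
  have E1 := hX.two h hhX y hyX hylt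
  rw [hC.eq, hC.eq h, f1, f2, ← hl, ← hu, g1, ← g2] at E1
  have z1 : ∀ p c a : ZMod 2, p + c + (a + 1) ≠ p + c + a := by decide
  exact z1 _ _ _ E1

/-- homogeneous sets for all colourings with two colours give `Σ⁰₁` comprehension -/
theorem rev3 (N : L2Structure.{u}) [IsModelRCA0 N]
    (H : ∀ C : N.M → ZMod 2, CG21 C → ∃ X, Hom3 C X) : Sig1 N := by
  constructor
  intro P hP
  obtain ⟨p2, top, la, hB0⟩ := bin N
  have hB : BinF p2 top la := binf N p2 top la (binp N p2 top la hB0)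
  obtain ⟨hf, hH⟩ := exists_half (N := N)
  obtain ⟨p3, h3⟩ := exists_p3 (N := N)
  obtain ⟨op, hO⟩ := exists_op hB
  obtain ⟨Q, hQ, hPQ⟩ := hP
  have hP' : S1 (fun v => P (v 0)) := ⟨Q, hQ, hPQ⟩
  let W : N.M → N.M → Prop := fun s z => ∃ s', s' < s + 1 ∧ Q (cons z (fun _ => (0 : N.M))) s'
  have hPW : ∀ z, P z ↔ ∃ s, W s z := by
    intro z
    have h1 := hPQ (cons z (fun _ => (0 : N.M)))
    constructor
    · intro h
      obtain ⟨s, hs⟩ := h1.1 h
      exact ⟨s, s, lt1 s, hs⟩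
    · rintro ⟨s, s', _, hs'⟩
      exact h1.2 ⟨s', hs'⟩
  have hW : Enum W := by
    constructor
    · refine D0.bex ((Tm.var 0).add Tm.one) ?_
      exact D0.comp (R := fun w => Q (tail w) (w 0)) hQ
        (g := fun w => cons (w 0) (cons (w 2) (fun _ => (0 : N.M))))
        (CM.cons (Tm.var 0) (CM.cons (Tm.var 2) (fun _ => Tm.zero)))
    · rintro s t z hst ⟨s', h1, h2⟩
      exact ⟨s', lt_of_lt_of_le h1 (by gcongr), h2⟩
  obtain ⟨H1, hH1⟩ := exists_HS (p2 := p2) (p3 := p3) (W := W) hB h3 hW True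
  obtain ⟨H0, hH0⟩ := exists_HS (p2 := p2) (p3 := p3) (W := W) hB h3 hW False
  obtain ⟨C, hC⟩ := exists_C3 hB hH hO hH1 hH0
  obtain ⟨X, hX⟩ := H C hC.hC
  refine comp_D1 hP' ?_
  have hXm := hX.mem
  have hla : GF la := hB.hla
  have hhf : GF hf := hH.gf
  have hop : GF op := hO.gf
  have hp3 : GF p3 := h3.gf
  have hWD : ∀ {s t : Ctx N → N.M}, DG s → DG t → D1 (fun v => W (s v) (t v)) :=
    fun hs ht => D1.app2 (R := W) (D1.of hW.hW) hs ht
  refine S1.congr (R := fun v => ∃ h, ∃ m, (h ∈ X ∧ (0 < h ∧ (v 0 < hf (la h) ∧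
    (8 ≤ m ∧ (TT p2 (v 0) (p3 m * op h) ∧ ¬ W (p3 m * op h) (v 0))))))) ?_ fun v => ?_
  · refine S1.ex (S1.ex ?_)
    refine (D1.and (D1.mem (DG.var 1) hXm) (D1.and (D1.lt (DG.const 0) (DG.var 1))
      (D1.and (D1.lt (DG.var 2) (DG.app hhf (DG.app hla (DG.var 1))))
      (D1.and (D1.le (DG.const 8) (DG.var 0)) (D1.and
      (TT.D1' hB (DG.var 2) (DG.mul (DG.app hp3 (DG.var 0)) (DG.app hop (DG.var 1))))
      (hWD (DG.mul (DG.app hp3 (DG.var 0)) (DG.app hop (DG.var 1))) (DG.var 2)).not))))).1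
  · constructor
    · rintro ⟨h, m, h1, h2, h4, h5, h6, h7⟩ hPv
      obtain ⟨t, ht⟩ := (hPW _).1 hPv
      obtain ⟨s, hs⟩ := exists_En hW ht
      have h8 := settled3 hB h3 hW hH hO hH1 hH0 hC X hX h1 h2 h4 h5 h6 hs
      have h9 : s ≤ p3 m * op h := (hB.lt_p2 s).le.trans (not_lt.1 h8)
      exact h7 (hW.mono _ _ _ h9 hs.1)
    · intro hPv
      obtain ⟨h, h1, h2, h4⟩ := far3 hB h3 hW hH hO hH1 hH0 hC X hX ((v 0 + 1) + (v 0 + 1))
      obtain ⟨m, hm, hT⟩ := exists_tick hB h3 (hO.od h h2) (v 0)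
      have h5 : v 0 < hf (la h) := by
        have h6 := hH.mono _ _ h4.le
        rw [hH.dbl] at h6
        exact (lt1 _).trans_le h6
      exact ⟨h, m, h1, h2, h5, hm, hT, fun h7 => hPv ((hPW _).2 ⟨_, h7⟩)⟩

end Run7.h950
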