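import Mathlib
import Pool.Agent.Run7.h950.TwoCol

/-!
Two colours and sums of at most four terms over `RCA₀`: homogeneous sets.
-/

namespace Run7.h950

open Pool.Agent.Helper617.RM Pool.Agent.H645R2.R

universe u

set_option linter.unusedSectionVars false
set_option linter.unusedVariables false

variable {N : L2Structure.{u}} [IsModelRCA0 N]

/-- an unbounded set with all sums of one, two or four terms of one colour -/
structure Hom4 (C : N.M → ZMod 2) (X : Set N.M) : Prop where
  mem : X ∈ N.Sets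
  unb : ∀ b, ∃ x ∈ X, b < x
  two : ∀ x ∈ X, ∀ y ∈ X, x < y → C (x + y) = C x
  four : ∀ x ∈ X, ∀ y ∈ X, ∀ z ∈ X, ∀ t ∈ X, x < y → y < z → z < t →
    C (x + y + z + t) = C x

variable {p2 top la hf : N.M → N.M} {W : N.M → N.M → Prop} {C : N.M → ZMod 2}

/-- higher digits do not matter -/
theorem stab2 (hB : BinF p2 top la) (hH : Half hf) (hE : Enum W) (hS : Col p2 top la hf W C)
    (P M : N.M) (hbd : Bd W P M) (m i : N.M) (hm : 0 < m) (hmi : m < p2 i)
    (hla : hf (la m) ≤ P) (htop : la m + M ≤ top m) (q : N.M) : C (m + p2 i * q) = C m := by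
  have key : ∀ b : N.M, ∀ q, q < b → C (m + p2 i * q) = C m := by
    intro b
    refine ind_S1 (P := fun b => ∀ q, q < b → C (m + p2 i * q) = C m) ?_ ?_ ?_ b
    · have hC := hS.hC
      have : D1 (fun v : Ctx N => ∀ q, q < v 0 → C (m + p2 i * q) = C m) := by
        refine D1.ball (P := fun v q => C (m + p2 i * q) = C m) (DG.var 0) ?_
        exact CG2.eq (CG2.app hC (DG.add (DG.const _) (DG.mul (DG.const _) (DG.var 0))))
          (CG2.const _)
      exact this.1
    · intro q hq
      exact absurd hq (not_lt.2 (zero_le' q))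
    · intro b ih q hq
      rcases (le_of_lt1 hq).lt_or_eq with h | rfl
      · exact ih q h
      · rcases (zero_le' q).lt_or_eq with hq0 | hq0
        · obtain ⟨q', hq', hqe⟩ : ∃ q', q' < p2 (top q) ∧ q = q' + p2 (top q) := by
            rcases hB.dec q hq0 with h | ⟨q', _, h1, h2⟩
            · exact ⟨0, hB.p2_pos _, by rw [zero_add]; exact h⟩
            · exact ⟨q', h1, h2⟩
          set j := top q with hj
          have hlt : q' < q := by
            have := hB.p2_pos j
            conv_rhs => rw [hqe]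
            exact lt_add_of_pos_right _ this
          have hC' := ih q' hlt
          have h1 : m + p2 i * q = (m + p2 i * q') + p2 (i + j) := by
            rw [hB.p2_add, hqe]; ring
          have h0 : 0 < m + p2 i * q' := lt_of_lt_of_le hm le_self_add
          have h2 : m + p2 i * q' < p2 (i + j) := by
            rw [hB.p2_add]
            calc m + p2 i * q' < p2 i + p2 i * q' := by gcongr
              _ = p2 i * (q' + 1) := by ring
              _ ≤ p2 i * p2 j := by
                have := succ_le' hq'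
                gcongr
          have h3 : la (m + p2 i * q') = la m := hB.la_add m i q' hm hmi
          have h4 : top m ≤ top (m + p2 i * q') := hB.top_mono _ _ hm le_self_add
          obtain ⟨d, hd⟩ := exists_sub (htop.trans h4)
          obtain ⟨b', hb'⟩ := exists_sub (hB.la_lt _ _ h0 h2).le
          have h5 : top (m + p2 i * q') = la (m + p2 i * q') + (M + d) := by
            rw [hd, h3]; ring
          have h6 : ¬ Ev W (hf (la (m + p2 i * q'))) (M + d) b' := by
            rintro ⟨z, hz, hWb, hnWa⟩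
            rw [h3] at hz
            exact hnWa (hE.mono M (M + d) z le_self_add (hbd z (lt_of_lt_of_le hz hla) b' hWb))
          rw [h1, hS.add0 _ _ _ _ h0 h2 h5 hb' h6, hC']
        · rw [← hq0, mul_zero, add_zero]
  exact key (q + 1) q (lt1 q)

/-- the last gap -/
theorem gap2 (hB : BinF p2 top la) (hH : Half hf) (hE : Enum W) (hC : Col p2 top la hf W C)
    (P M : N.M) (hP : Bd W P M) (w i a : N.M) (hw : 0 < w) (hwi : w < p2 i)
    (hla : hf (la w) ≤ P) (hi : la w + M ≤ i) (ha : top w = la w + a) (q : N.M) (hq : 0 < q) :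
    (Ev W (hf (la w)) a M → C (w + p2 i * q) = C w + 1) ∧
      (¬ Ev W (hf (la w)) a M → C (w + p2 i * q) = C w) := by
  obtain ⟨e, r, hqe⟩ := hB.low q hq
  obtain ⟨c, hc⟩ := exists_sub hi
  have hpe : (1 : N.M) ≤ p2 e := by
    have := succ_le' (hB.p2_pos e)
    simpa using this
  have hle : p2 i ≤ p2 (i + e) := by
    rw [hB.p2_add]
    calc p2 i = p2 i * 1 := by ring
      _ ≤ p2 i * p2 e := mul_le_mul' le_rfl hpe
  have hwie : w < p2 (i + e) := lt_of_lt_of_le hwi hle
  have hsum : w + p2 i * q = (w + p2 (i + e)) + p2 (i + e + 1) * r := by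
    rw [hqe, add_assoc i e 1, hB.p2_add i e, hB.p2_add i (e + 1)]
    ring
  have hla' : la (w + p2 (i + e)) = la w := by
    have := hB.la_add w (i + e) 1 hw hwie
    simpa using this
  have htop' : top (w + p2 (i + e)) = i + e := hB.top_add w (i + e) hwie
  have hlt : w + p2 (i + e) < p2 (i + e + 1) := by
    rw [hB.p2_succ]
    exact add_lt_add_left hwie _
  have hpos : 0 < w + p2 (i + e) := lt_of_lt_of_le hw (le_add_of_nonneg_right zero_le)
  have hstab : C ((w + p2 (i + e)) + p2 (i + e + 1) * r) = C (w + p2 (i + e)) := by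
    refine stab2 hB hH hE hC P M hP _ _ hpos hlt ?_ ?_ r
    · rw [hla']; exact hla
    · rw [hla', htop']
      exact le_trans hi (le_add_of_nonneg_right zero_le)
  have hb : i + e = la w + (M + c + e) := by
    rw [hc]; ring
  have hev : Ev W (hf (la w)) a (M + c + e) ↔ Ev W (hf (la w)) a M := by
    constructor
    · rintro ⟨z, hz, h1, h2⟩
      exact ⟨z, hz, hP z (lt_of_lt_of_le hz hla) _ h1, h2⟩
    · rintro ⟨z, hz, h1, h2⟩
      refine ⟨z, hz, hE.mono M _ z ?_ h1, h2⟩
      rw [add_assoc]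
      exact le_add_of_nonneg_right zero_le
  rw [hsum, hstab]
  constructor
  · intro hv
    exact hC.add1 w (i + e) a (M + c + e) hw hwie ha hb (hev.2 hv)
  · intro hv
    exact hC.add0 w (i + e) a (M + c + e) hw hwie ha hb (fun hx => hv (hev.1 hx))

/-- doubling changes the colour if the level of the events does not change -/
theorem dbl2 (hB : BinF p2 top la) (hH : Half hf) (hE : Enum W) (hC : Col p2 top la hf W C) :
    ∀ w, 0 < w → hf (la w + 1) = hf (la w) → C (w + w) = C w + 1 := by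
  have hla := hB.hla
  have hhf := hH.gf
  have hC' := hC.hC
  have key : ∀ w, ¬ (0 < w ∧ (hf (la w + 1) = hf (la w) ∧ ¬ C (w + w) = C w + 1)) := by
    intro w hw
    have hD : D1 (fun v : Ctx N => 0 < v 0 ∧ (hf (la (v 0) + 1) = hf (la (v 0)) ∧
        ¬ C (v 0 + v 0) = C (v 0) + 1)) := by
      refine D1.and (D1.lt (DG.const 0) (DG.var 0)) (D1.and ?_ (D1.not ?_))
      · exact D1.eq (DG.app hhf (DG.add (DG.app hla (DG.var 0)) (DG.const 1)))
          (DG.app hhf (DG.app hla (DG.var 0)))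
      · exact CG2.eq (CG2.app hC' (DG.add (DG.var 0) (DG.var 0)))
          ((CG2.app hC' (DG.var 0)).map (fun x => x + 1))
    obtain ⟨w, -, ⟨hw0, hfw, hne⟩, hmin⟩ := lnp_S1
      (P := fun w => 0 < w ∧ (hf (la w + 1) = hf (la w) ∧ ¬ C (w + w) = C w + 1)) hD.1 w hw
    apply hne
    rcases hB.dec w hw0 with h | ⟨m, hm0, hm, h⟩
    · have h1 : w + w = p2 (top w + 1) := by rw [hB.p2_succ, ← h]
      rw [h1, hC.pow, ← h]
    · obtain ⟨i, hi⟩ : ∃ i, i = top w := ⟨_, rfl⟩
      rw [← hi] at hm h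
      have hla : la w = la m := by
        have h1 := hB.la_add m i 1 hm0 hm
        rw [mul_one, ← h] at h1
        exact h1
      obtain ⟨a, ha⟩ := exists_sub (hB.la_le_top m hm0)
      obtain ⟨b, hb⟩ := exists_sub (hB.la_lt m i hm0 hm).le
      have hmw : m < w := by
        rw [h]
        exact lt_add_of_pos_right m (hB.p2_pos i)
      rw [hla] at hfw
      have hIH : C (m + m) = C m + 1 := by
        by_contra hcon
        exact hmin m hmw ⟨hm0, hfw, hcon⟩
      have h2w : w + w = (m + m) + p2 (i + 1) := by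
        rw [h, hB.p2_succ]
        exact add_add_add_comm _ _ _ _
      have h2m : m + m < p2 (i + 1) := by
        rw [hB.p2_succ]
        exact add_lt_add hm hm
      have h2m0 : 0 < m + m := add_pos hm0 hm0
      have hla2 : la (m + m) = la m + 1 := hB.la_dbl m hm0
      have htop2 : top (m + m) = la (m + m) + a := by
        rw [hB.top_dbl m hm0, hla2, ha]
        ring
      have hi2 : i + 1 = la (m + m) + b := by
        rw [hla2, hb]
        ring
      by_cases hev : Ev W (hf (la m)) a b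
      · rw [h2w, hC.add1 (m + m) (i + 1) a b h2m0 h2m htop2 hi2 (by rw [hla2, hfw]; exact hev),
          hIH, h, hC.add1 m i a b hm0 hm ha hb hev]
      · rw [h2w, hC.add0 (m + m) (i + 1) a b h2m0 h2m htop2 hi2 (by rw [hla2, hfw]; exact hev),
          hIH, h, hC.add0 m i a b hm0 hm ha hb hev]
  intro w hw0 hfw
  by_contra hcon
  exact key w ⟨hw0, hfw, hcon⟩

/-- doubling changes the limit colour if the level of the events does not change -/
theorem ne2 (hB : BinF p2 top la) (hH : Half hf) (hE : Enum W) (hC : Col p2 top la hf W C)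
    (P M : N.M) (hP : Bd W P M) (w i : N.M) (hw : 0 < w) (hwi : w < p2 i)
    (hla : hf (la w) ≤ P) (hi : la w + M ≤ i) (hfw : hf (la w + 1) = hf (la w))
    (q q' : N.M) (hq : 0 < q) (hq' : 0 < q') :
    C (w + p2 i * q) ≠ C ((w + w) + p2 (i + 1) * q') := by
  obtain ⟨a, ha⟩ := exists_sub (hB.la_le_top w hw)
  have h1 := gap2 hB hH hE hC P M hP w i a hw hwi hla hi ha q hq
  have e1 : 0 < w + w := add_pos hw hw
  have e2 : w + w < p2 (i + 1) := by
    rw [hB.p2_succ]
    exact add_lt_add hwi hwi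
  have e3 : la (w + w) = la w + 1 := hB.la_dbl w hw
  have e4 : la (w + w) + M ≤ i + 1 := by
    rw [e3, add_right_comm]
    exact add_le_add_left hi 1
  have e5 : top (w + w) = la (w + w) + a := by
    rw [hB.top_dbl w hw, ha, e3, add_right_comm]
  have h2 := gap2 hB hH hE hC P M hP (w + w) (i + 1) a e1 e2
    (by rw [e3, hfw]; exact hla) e4 e5 q' hq'
  rw [e3, hfw] at h2
  have h3 := dbl2 hB hH hE hC w hw hfw
  have z : ∀ x : ZMod 2, x ≠ x + 1 := by decide
  by_cases hp : Ev W (hf (la w)) a M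
  · rw [h1.1 hp, h2.1 hp, h3]
    exact z _
  · rw [h1.2 hp, h2.2 hp, h3]
    exact z _

/-- homogeneous sets contain elements with arbitrarily high lowest position -/
theorem far2 (hB : BinF p2 top la) (hH : Half hf) (hE : Enum W) (hS : Col p2 top la hf W C)
    (X : Set N.M) (hX : Hom4 C X) (b : N.M) : ∃ x ∈ X, 0 < x ∧ b < la x := by
  by_contra hcon
  have hcon' : ∀ x ∈ X, 0 < x → la x ≤ b := fun x hx h0 => by
    by_contra h
    exact hcon ⟨x, hx, h0, not_le.1 h⟩
  obtain ⟨M, _, hM⟩ := bd N W hE (b + 1 + 1) 0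
  obtain ⟨i, hi⟩ : ∃ i, i = b + M + 1 := ⟨_, rfl⟩
  have hp2 := hB.hp2
  have hXm := hX.mem
  -- for each lower bound, a bound for the least elements of the residue classes
  have hbnd : ∀ L : N.M, ∃ B, ∀ r, r < p2 (i + 1 + 1) →
      (∃ x, x ∈ X ∧ L < x ∧ ∃ q, q < x + 1 ∧ x = r + p2 (i + 1 + 1) * q) →
      ∃ x, x < B ∧ (x ∈ X ∧ L < x ∧ ∃ q, q < x + 1 ∧ x = r + p2 (i + 1 + 1) * q) := by
    intro L
    have hQ : D0 (fun v : Ctx N =>
        v 1 ∈ X ∧ L < v 1 ∧ ∃ q, q < v 1 + 1 ∧ v 1 = v 0 + p2 (i + 1 + 1) * q) := by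
      have : D1 (fun v : Ctx N =>
          v 1 ∈ X ∧ L < v 1 ∧ ∃ q, q < v 1 + 1 ∧ v 1 = v 0 + p2 (i + 1 + 1) * q) := by
        refine D1.and (D1.mem (DG.var 1) hXm) (D1.and (D1.lt (DG.const _) (DG.var 1)) ?_)
        refine D1.bex (P := fun v q => v 1 = v 0 + p2 (i + 1 + 1) * q)
          (DG.add (DG.var 1) (DG.const _)) ?_
        exact D1.eq (DG.var 2) (DG.add (DG.var 1) (DG.mul (DG.const _) (DG.var 0)))
      exact d0_of_D1
        (R := fun r x => x ∈ X ∧ L < x ∧ ∃ q, q < x + 1 ∧ x = r + p2 (i + 1 + 1) * q)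
        this.1 this.2
    exact strong_bounding
      (Q := fun r x => x ∈ X ∧ L < x ∧ ∃ q, q < x + 1 ∧ x = r + p2 (i + 1 + 1) * q)
      hQ (p2 (i + 1 + 1))
  obtain ⟨B1, hB1⟩ := hbnd (p2 i)
  obtain ⟨B2, hB2⟩ := hbnd (max B1 (p2 i))
  obtain ⟨B3, hB3⟩ := hbnd (max B2 (max B1 (p2 i)))
  obtain ⟨y, hyX, hy⟩ := hX.unb (max B3 (max B2 (max B1 (p2 i))))
  have hyB3 : B3 < y := (le_max_left _ _).trans_lt hy
  have hy2 : max B2 (max B1 (p2 i)) < y := (le_max_right _ _).trans_lt hy
  have hy1 : max B1 (p2 i) < y := (le_max_right _ _).trans_lt hy2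
  have hyp : p2 i < y := (le_max_right _ _).trans_lt hy1
  obtain ⟨r, q4, hr, hyr⟩ := hB.modp y (i + 1 + 1)
  have hq4 : q4 < y + 1 := by
    apply lt1_of_le
    have h1 : 1 ≤ p2 (i + 1 + 1) := by
      have := succ_le' (hB.p2_pos (i + 1 + 1))
      rwa [zero_add] at this
    calc q4 = 1 * q4 := (one_mul _).symm
      _ ≤ p2 (i + 1 + 1) * q4 := by gcongr
      _ ≤ r + p2 (i + 1 + 1) * q4 := le_add_self
      _ = y := hyr.symm
  obtain ⟨x, hxB, hxX, hxp, q1, _, hx1⟩ := hB1 r hr ⟨y, hyX, hyp, q4, hq4, hyr⟩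
  obtain ⟨x', hxB', hxX', hxp', q2, _, hx2⟩ := hB2 r hr ⟨y, hyX, hy1, q4, hq4, hyr⟩
  obtain ⟨x'', hxB'', hxX'', hxp'', q3, _, hx3⟩ := hB3 r hr ⟨y, hyX, hy2, q4, hq4, hyr⟩
  have hlt1 : x < x' := hxB.trans ((le_max_left _ _).trans_lt hxp')
  have hlt2 : x' < x'' := hxB'.trans ((le_max_left _ _).trans_lt hxp'')
  have hlt3 : x'' < y := hxB''.trans hyB3
  obtain ⟨w, e, hw, hre⟩ := hB.modp r i
  have hp21 : p2 (i + 1) = p2 i + p2 i := hB.p2_succ i
  have hp22 : p2 (i + 1 + 1) = p2 (i + 1) + p2 (i + 1) := hB.p2_succ (i + 1)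
  have s1 : x = w + p2 i * (e + (q1 + q1 + q1 + q1)) := by rw [hx1, hre, hp22, hp21]; ring
  have s2 : x + x' = (w + w) + p2 (i + 1) * (e + (q1 + q1 + q2 + q2)) := by
    rw [hx1, hx2, hre, hp22, hp21]; ring
  have s4 : x + x' + x'' + y = ((w + w) + (w + w)) + p2 (i + 1 + 1) * (e + q1 + q2 + q3 + q4) := by
    rw [hx1, hx2, hx3, hyr, hre, hp22, hp21]; ring
  have hpi := hB.p2_pos i
  have hx0 : 0 < x := hpi.trans hxp
  have hex : 0 < e + (q1 + q1 + q1 + q1) := by
    rcases (zero_le' (e + (q1 + q1 + q1 + q1))).lt_or_eq with h | h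
    · exact h
    · exfalso
      rw [← h, mul_zero, add_zero] at s1
      rw [s1] at hxp
      exact lt_asymm hxp hw
  have heq : 0 < e + q1 := by
    rcases (zero_le' e).lt_or_eq with he | he
    · exact he.trans_le le_self_add
    · rcases (zero_le' q1).lt_or_eq with hq | hq
      · exact hq.trans_le le_add_self
      · exfalso
        rw [← he, ← hq] at hex
        simp at hex
  have hexy : 0 < e + (q1 + q1 + q2 + q2) := by
    refine heq.trans_le ?_
    have h1 : e + (q1 + q1 + q2 + q2) = (e + q1) + (q1 + q2 + q2) := by ring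
    rw [h1]
    exact le_self_add
  have hexyz : 0 < e + q1 + q2 + q3 + q4 := by
    refine heq.trans_le ?_
    have h1 : e + q1 + q2 + q3 + q4 = (e + q1) + (q2 + q3 + q4) := by ring
    rw [h1]
    exact le_self_add
  have hw0 : 0 < w := by
    rcases (zero_le' w).lt_or_eq with h | h
    · exact h
    · exfalso
      rw [← h, zero_add] at s1
      have h1 := hB.le_la i _ hex
      rw [← s1] at h1
      have h2 := hcon' x hxX hx0
      have h3 : b + M + 1 ≤ b := by
        rw [← hi]
        exact h1.trans h2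
      exact absurd h3 (not_le.2 (lt1_of_le le_self_add))
  have hla : la x = la w := by
    rw [s1]
    exact hB.la_add w i _ hw0 hw
  have hlb : la w ≤ b := by
    rw [← hla]
    exact hcon' x hxX hx0
  have hle : la w + M ≤ i := by
    rw [hi]
    calc la w + M ≤ b + M := by gcongr
      _ ≤ b + M + 1 := le_self_add
  have hP1 : hf (la w) ≤ b + 1 + 1 :=
    (hH.le _).trans (hlb.trans (le_self_add.trans le_self_add))
  have hxy := hX.two x hxX x' hxX' hlt1
  have hxyz := hX.four x hxX x' hxX' x'' hxX'' y hyX hlt1 hlt2 hlt3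
  obtain ⟨k, -, hk⟩ := BinEx.parity (la w)
  rcases hk with hk | hk
  · -- even level: compare one term and two terms
    have hfw : hf (la w + 1) = hf (la w) := by
      rw [hk, hH.dbl1, hH.dbl]
    have hne := ne2 hB hH hE hS _ M hM w i hw0 hw hP1 hle hfw _ _ hex hexy
    rw [← s1, ← s2] at hne
    exact hne hxy.symm
  · -- odd level: compare two terms and four terms
    have hla2 : la (w + w) = la w + 1 := hB.la_dbl w hw0
    have hk2 : la w + 1 = (k + 1) + (k + 1) := by
      rw [hk]; ring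
    have hfw : hf (la (w + w) + 1) = hf (la (w + w)) := by
      rw [hla2, hk2, hH.dbl1, hH.dbl]
    have hP2 : hf (la (w + w)) ≤ b + 1 + 1 := by
      rw [hla2]
      exact (hH.le _).trans ((add_le_add_left hlb 1).trans le_self_add)
    have hle2 : la (w + w) + M ≤ i + 1 := by
      rw [hla2, add_right_comm]
      exact add_le_add_left hle 1
    have hww : w + w < p2 (i + 1) := by
      rw [hp21]
      exact add_lt_add hw hw
    have hne := ne2 hB hH hE hS _ M hM (w + w) (i + 1) (add_pos hw0 hw0) hww hP2 hle2 hfw _ _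
      hexy hexyz
    rw [← s2, ← s4, hxy, hxyz] at hne
    exact hne rfl

/-- every element of a homogeneous set bounds the stages -/
theorem settled2 (hB : BinF p2 top la) (hH : Half hf) (hE : Enum W) (hC : Col p2 top la hf W C)
    (X : Set N.M) (hX : Hom4 C X) (h : N.M) (hhX : h ∈ X) (hpos : 0 < h) (a : N.M)
    (hta : top h = la h + a) : Bd W (hf (la h)) a := by
  intro z hz s hs
  by_contra hna
  obtain ⟨M, hsM, hM⟩ := bd N W hE (hf (la h)) s
  obtain ⟨l, hlX, hlpos, hl⟩ := far2 hB hH hE hC X hX (la h + M + top h + h)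
  have hWM : W M z := hM z hz s hs
  have e0 : la h + M + top h + h + 1 ≤ la l := add_one_le_iff'.2 hl
  have z1 : (0 : N.M) ≤ la h := zero_le' _
  have z2 : (0 : N.M) ≤ M := zero_le' _
  have z3 : (0 : N.M) ≤ top h := zero_le' _
  have z4 : (0 : N.M) ≤ h := zero_le' _
  have e1 : top h + 1 ≤ la l := by grind
  have e2 : la h + M ≤ la l := by grind
  have e3 : h < p2 (la l) := by
    refine lt_of_lt_of_le (hB.lt_top h) ?_
    rcases lt_or_eq_of_le e1 with e | e
    · exact (hB.p2_lt _ _ e).le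
    · rw [e]
  obtain ⟨q, hq⟩ := hB.la_eq l hlpos
  have hq1 : (1 : N.M) ≤ q + q + 1 := by
    have : (0 : N.M) ≤ q := zero_le' _
    grind
  have hq0 : (0 : N.M) < q + q + 1 := lt_of_lt_of_le zero_lt_one hq1
  have hle : p2 (la l) ≤ l := by
    calc p2 (la l) = p2 (la l) * 1 := (mul_one _).symm
      _ ≤ p2 (la l) * (q + q + 1) := mul_le_mul_of_nonneg_left hq1 (zero_le' _)
      _ = l := hq.symm
  have hlt : h < l := lt_of_lt_of_le e3 hle
  have h1 := (gap2 hB hH hE hC (hf (la h)) M hM h (la l) a hpos e3 le_rfl e2 hta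
    (q + q + 1) hq0).1 ⟨z, hz, hWM, hna⟩
  rw [← hq, hX.two h hhX l hlX hlt] at h1
  exact (by decide : ∀ x : ZMod 2, x ≠ x + 1) _ h1

/-- homogeneous sets for all colourings with two colours give `Σ⁰₁` comprehension -/
theorem rev2 (N : L2Structure.{u}) [IsModelRCA0 N]
    (H : ∀ C : N.M → ZMod 2, CG21 C → ∃ X, Hom4 C X) : Sig1 N := by
  constructor
  intro P hP
  obtain ⟨p2, top, la, hB0⟩ := bin N
  have hB : BinF p2 top la := binf N p2 top la (binp N p2 top la hB0)
  obtain ⟨hf, hH⟩ := exists_half (N := N)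
  obtain ⟨Q, hQ, hPQ⟩ := hP
  have hP' : S1 (fun v => P (v 0)) := ⟨Q, hQ, hPQ⟩
  let W : N.M → N.M → Prop := fun s z => ∃ s', s' < s + 1 ∧ Q (cons z (fun _ => (0 : N.M))) s'
  have hPW : ∀ z, P z ↔ ∃ s, W s z := by
    intro z
    have h1 := hPQ (cons z (fun _ => (0 : N.M)))
    constructor
    · intro h
      obtain ⟨s, hs⟩ := h1.1 h
      exact ⟨s, s, lt1 s, hs⟩
    · rintro ⟨s, s', _, hs'⟩
      exact h1.2 ⟨s', hs'⟩
  have hW : Enum W := by
    constructor
    · refine D0.bex ((Tm.var 0).add Tm.one) ?_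
      exact D0.comp (R := fun w => Q (tail w) (w 0)) hQ
        (g := fun w => cons (w 0) (cons (w 2) (fun _ => (0 : N.M))))
        (CM.cons (Tm.var 0) (CM.cons (Tm.var 2) (fun _ => Tm.zero)))
    · rintro s t z hst ⟨s', h1, h2⟩
      exact ⟨s', lt_of_lt_of_le h1 (by gcongr), h2⟩
  obtain ⟨C, hC⟩ := exists_col p2 top la hf W hB hH hW
  obtain ⟨X, hX⟩ := H C hC.hC
  refine comp_D1 hP' ?_
  have hXm := hX.mem
  have htop : GF top := hB.htop
  have hla : GF la := hB.hla
  have hhf : GF hf := hH.gf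
  have hWD : ∀ {s t : Ctx N → N.M}, DG s → DG t → D1 (fun v => W (s v) (t v)) :=
    fun hs ht => D1.app2 (R := W) (D1.of hW.hW) hs ht
  refine S1.congr (R := fun v => ∃ h, ∃ a, (h ∈ X ∧ (0 < h ∧ (v 0 < hf (la h) ∧
    (top h = la h + a ∧ ¬ W a (v 0)))))) ?_ fun v => ?_
  · refine S1.ex (S1.ex ?_)
    refine (D1.and (D1.mem (DG.var 1) hXm) (D1.and (D1.lt (DG.const 0) (DG.var 1))
      (D1.and (D1.lt (DG.var 2) (DG.app hhf (DG.app hla (DG.var 1))))
      (D1.and (D1.eq (DG.app htop (DG.var 1))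
      (DG.add (DG.app hla (DG.var 1)) (DG.var 0))) (hWD (DG.var 0) (DG.var 2)).not)))).1
  · constructor
    · rintro ⟨h, a, h1, h2, h3, h4, h5⟩ hPv
      obtain ⟨s, hs⟩ := (hPW _).1 hPv
      exact h5 (settled2 hB hH hW hC X hX h h1 h2 a h4 _ h3 s hs)
    · intro hPv
      obtain ⟨h, h1, h2, h3⟩ := far2 hB hH hW hC X hX ((v 0 + 1) + (v 0 + 1))
      obtain ⟨a, ha⟩ := exists_sub (hB.la_le_top h h2)
      have h4 : v 0 < hf (la h) := by
        have h5 := hH.mono _ _ h3.le
        rw [hH.dbl] at h5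
        exact (lt1 _).trans_le h5
      exact ⟨h, a, h1, h2, h4, ha, fun h5 => hPv ((hPW _).2 ⟨a, h5⟩)⟩

end Run7.h950
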